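import Mathlib
import Pool.Agent.Lib.MP_13800a_gt.Defs

section

/-! TASKS M1, M2, M3: covers of multiplicity `≤ 3`. -/

set_option autoImplicit false

namespace Pool.Agent.CRC

open Set Topology

/-- a finite family of nonnegative continuous functions without common zero -/
structure IsFam {S : Type} [TopologicalSpace S] {m : ℕ} (φ : Fin m → S → ℝ) : Prop where
  cont : ∀ i, Continuous (φ i)
  nonneg : ∀ i x, 0 ≤ φ i x
  pos : ∀ x, ∃ i, 0 < φ i x

end Pool.Agent.CRC
end

section

/-! TASK M1: functions with small supports. -/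

set_option autoImplicit false

namespace Pool.Agent.CRC

open Set Topology

theorem exists_fam {S : Type} [MetricSpace S] [CompactSpace S] (ε : ℝ) (hε : 0 < ε) :
    ∃ (m : ℕ) (φ : Fin m → S → ℝ), IsFam φ ∧
      ∀ i x y, 0 < φ i x → 0 < φ i y → dist x y < ε := by
  obtain ⟨t, htf, ht⟩ := Metric.totallyBounded_iff.mp
    (isCompact_univ (X := S)).totallyBounded (ε / 2) (by linarith)
  have e := htf.toFinset.equivFin
  refine ⟨htf.toFinset.card, fun i x => max 0 (ε / 2 - dist x (e.symm i).1), ⟨?_, ?_, ?_⟩, ?_⟩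
  · intro i
    fun_prop
  · intro i x
    exact le_max_left _ _
  · intro x
    have hx := ht (mem_univ x)
    simp only [mem_iUnion, exists_prop] at hx
    obtain ⟨y, hy, hxy⟩ := hx
    refine ⟨e ⟨y, htf.mem_toFinset.mpr hy⟩, ?_⟩
    show 0 < max 0 (ε / 2 - dist x (e.symm (e ⟨y, htf.mem_toFinset.mpr hy⟩)).1)
    rw [Equiv.symm_apply_apply]
    have hxy' : dist x y < ε / 2 := hxy
    exact lt_max_of_lt_right (by linarith)
  · intro i x y hx hy
    have hx' : 0 < max 0 (ε / 2 - dist x (e.symm i).1) := hx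
    have hy' : 0 < max 0 (ε / 2 - dist y (e.symm i).1) := hy
    rw [lt_max_iff] at hx' hy'
    have h1 := hx'.resolve_left (lt_irrefl 0)
    have h2 := hy'.resolve_left (lt_irrefl 0)
    have h3 := dist_triangle_right x y (e.symm i).1
    linarith

end Pool.Agent.CRC
end

section

/-! TASK M2a: algebra at one point.

With `m = min_a f a`: `ψ_a = f a + m w_a / 2` for `a = 1,2,3`, `ψ_0 = f 0`;
`φ_a = ψ_a - min_b ψ_b`.
* `φ_a > 0 → f a > 0`: if `m = 0` then `ψ = f`, `min ψ = 0`; if `m > 0` all four are positive.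
* if all `φ_a` vanish then `ψ_0 = ψ_1 = ψ_2 = ψ_3`, so `g4 f = -(m/2) w`, `‖g4 f‖ = m / 2`.
  If `‖g4 f‖ ≥ η` then also `g4 f = ‖g4 f‖ w`, so `‖g4 f‖ = 0`, contradiction. So `m / 2 < η` and
  `|f a - f 0| ≤ ‖g4 f‖ < η`, hence all `f a ≤ m + 2 η ≤ 4 η`. -/

set_option autoImplicit false

namespace Pool.Agent.CRC

open Set Topology

/-- the purely algebraic part at one point: `f : Fin 4 → ℝ` the values of the four functions,
`w` a vector of `R3`. -/
noncomputable def psi4 (f : Fin 4 → ℝ) (w : R3) : Fin 4 → ℝ :=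
  fun a => f a + (min (min (f 0) (f 1)) (min (f 2) (f 3))) / 2 *
    (![0, w 0, w 1, w 2] : Fin 4 → ℝ) a

noncomputable def phi4 (f : Fin 4 → ℝ) (w : R3) : Fin 4 → ℝ :=
  fun a => psi4 f w a - min (min (psi4 f w 0) (psi4 f w 1)) (min (psi4 f w 2) (psi4 f w 3))

private lemma m2a_min_le (f : Fin 4 → ℝ) (a : Fin 4) :
    min (min (f 0) (f 1)) (min (f 2) (f 3)) ≤ f a := by
  fin_cases a
  · exact (min_le_left _ _).trans (min_le_left _ _)
  · exact (min_le_left _ _).trans (min_le_right _ _)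
  · exact (min_le_right _ _).trans (min_le_left _ _)
  · exact (min_le_right _ _).trans (min_le_right _ _)

private lemma m2a_min_mem (f : Fin 4 → ℝ) :
    ∃ a, f a = min (min (f 0) (f 1)) (min (f 2) (f 3)) := by
  rcases min_choice (min (f 0) (f 1)) (min (f 2) (f 3)) with h | h
  · rcases min_choice (f 0) (f 1) with h1 | h1
    · exact ⟨0, by rw [h, h1]⟩
    · exact ⟨1, by rw [h, h1]⟩
  · rcases min_choice (f 2) (f 3) with h1 | h1
    · exact ⟨2, by rw [h, h1]⟩
    · exact ⟨3, by rw [h, h1]⟩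

theorem phi4_nonneg (f : Fin 4 → ℝ) (w : R3) (a : Fin 4) : 0 ≤ phi4 f w a :=
  sub_nonneg.2 (m2a_min_le (psi4 f w) a)

theorem exists_phi4_eq_zero (f : Fin 4 → ℝ) (w : R3) : ∃ a, phi4 f w a = 0 := by
  obtain ⟨a, ha⟩ := m2a_min_mem (psi4 f w)
  exact ⟨a, sub_eq_zero.2 ha⟩

theorem pos_of_phi4_pos (f : Fin 4 → ℝ) (hf : ∀ a, 0 ≤ f a) (w : R3) (a : Fin 4)
    (h : 0 < phi4 f w a) : 0 < f a := by
  by_contra hn
  have h0 : f a = 0 := le_antisymm (not_lt.1 hn) (hf a)
  obtain ⟨b, hb⟩ := m2a_min_mem f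
  have hm : min (min (f 0) (f 1)) (min (f 2) (f 3)) = 0 := by
    apply le_antisymm
    · rw [← h0]; exact m2a_min_le f a
    · rw [← hb]; exact hf b
  have hpsi : psi4 f w = f := by
    funext c
    simp [psi4, hm]
  rw [phi4, hpsi, hm, h0] at h
  simp at h

/-- `g = (f 1 - f 0, f 2 - f 0, f 3 - f 0)` -/
noncomputable def g4 (f : Fin 4 → ℝ) : R3 := !₂[f 1 - f 0, f 2 - f 0, f 3 - f 0]

theorem phi4_all_zero (f : Fin 4 → ℝ) (hf : ∀ a, 0 ≤ f a) (w : R3) (hw : ‖w‖ = 1) (η : ℝ)
    (hη : 0 < η) (h : η ≤ ‖g4 f‖ → w = (‖g4 f‖⁻¹ : ℝ) • g4 f) (h0 : ∀ a, phi4 f w a = 0) :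
    ∀ a, f a ≤ 4 * η := by
  set m := min (min (f 0) (f 1)) (min (f 2) (f 3)) with hm
  obtain ⟨b, hb⟩ := m2a_min_mem f
  have hm0 : 0 ≤ m := by rw [hm, ← hb]; exact hf b
  have e : ∀ a, psi4 f w a = psi4 f w 0 := by
    intro a
    have h1 := h0 a
    have h2 := h0 0
    simp only [phi4] at h1 h2
    linarith
  have e1 : f 1 + m / 2 * w 0 = f 0 := by simpa [psi4] using e 1
  have e2 : f 2 + m / 2 * w 1 = f 0 := by simpa [psi4] using e 2
  have e3 : f 3 + m / 2 * w 2 = f 0 := by simpa [psi4] using e 3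
  have hg : g4 f = (-(m / 2)) • w := by
    ext i
    fin_cases i
    · simp [g4]; linarith
    · simp [g4]; linarith
    · simp [g4]; linarith
  have hng : ‖g4 f‖ = m / 2 := by
    rw [hg, norm_smul, hw, mul_one, Real.norm_eq_abs, abs_neg, abs_of_nonneg (by linarith)]
  have hlt : m / 2 < η := by
    by_contra hn
    have h3 := h (by rw [hng]; exact not_lt.1 hn)
    have hmpos : 0 < m / 2 := lt_of_lt_of_le hη (not_lt.1 hn)
    rw [hg] at h3
    rw [hg] at hng
    rw [hng, smul_smul] at h3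
    have h4 : (m / 2)⁻¹ * -(m / 2) = -1 := by
      rw [mul_neg, inv_mul_cancel₀ hmpos.ne']
    rw [h4, neg_one_smul] at h3
    have h5 : w = 0 := by
      have h6 : (2 : ℝ) • w = 0 := by
        rw [two_smul]
        nth_rewrite 1 [h3]
        simp
      exact (smul_eq_zero.1 h6).resolve_left (by norm_num)
    rw [h5, norm_zero] at hw
    exact zero_ne_one hw
  have hcoord : ∀ i : Fin 3, |g4 f i| < η := by
    intro i
    have h1 : ‖g4 f i‖ ≤ ‖g4 f‖ := PiLp.norm_apply_le (g4 f) i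
    rw [Real.norm_eq_abs] at h1
    linarith
  have k1 : |f 1 - f 0| < η := by simpa [g4] using hcoord 0
  have k2 : |f 2 - f 0| < η := by simpa [g4] using hcoord 1
  have k3 : |f 3 - f 0| < η := by simpa [g4] using hcoord 2
  rw [abs_lt] at k1 k2 k3
  have kb : f 0 ≤ m + η := by
    rw [hm, ← hb]
    fin_cases b
    · simp; linarith
    · simp; linarith
    · simp; linarith
    · simp; linarith
  intro a
  fin_cases a
  · simp; linarith
  · simp; linarith
  · simp; linarith
  · simp; linarith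

end Pool.Agent.CRC
end

section

/-! TASK S2: construction of blow-up data.

Tietze: extend `s` (with values in `R3`) to a continuous `s̃ : E → R3`;
`ρ z = min_{c < n} ‖s̃ (τ^c z)‖` (invariant because `τ^n = id`), `T = {ρ ≥ 1/2}`, `R = {ρ ≤ 1/2}`,
`sb z c = s̃ (τ^c z) / ‖s̃ (τ^c z)‖` (arbitrary where this is not defined). -/

set_option autoImplicit false

namespace Pool.Agent.CRC

open Set Topology

private lemma bum_iter {E : Type} {τ : E → E} {n : ℕ} (hord : τ^[n] = id) (k : ℕ) :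
    τ^[k] = τ^[k % n] := by
  conv_lhs => rw [← Nat.div_add_mod k n]
  rw [Function.iterate_add, Function.iterate_mul, hord, Function.iterate_id, Function.id_comp]

open Classical in
/-- normalisation with values in the sphere -/
private noncomputable def bum_nrm (y : S2) (v : R3) : S2 :=
  if h : v = 0 then y else ⟨‖v‖⁻¹ • v, by
    rw [mem_sphere_zero_iff_norm, norm_smul, norm_inv, norm_norm,
      inv_mul_cancel₀ (norm_ne_zero_iff.2 h)]⟩

private lemma bum_nrm_val {y : S2} {v : R3} (h : v ≠ 0) : (bum_nrm y v : R3) = ‖v‖⁻¹ • v := by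
  unfold bum_nrm
  rw [dif_neg h]

theorem exists_BUData {E : Type} [TopologicalSpace E] [CompactSpace E] [T2Space E] {τ : E → E}
    (hτ : Continuous τ) (n n' : ℕ) (hn : 0 < n) (hdvd : n ∣ n') (hord : τ^[n] = id)
    (T0 : Set E) (hT0 : IsClosed T0) (hT0i : ∀ z ∈ T0, τ z ∈ T0) (s : E → S2)
    (hs : ContinuousOn s T0) :
    ∃ D : BUData n n' τ, ∀ z ∈ T0, z ∈ D.T ∧ z ∉ D.R ∧ D.sb z 0 = s z := by
  have : NeZero n := ⟨hn.ne'⟩
  -- Tietze extension
  obtain ⟨g, hg⟩ : ∃ g : C(E, R3), ∀ z ∈ T0, g z = s z := by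
    let f : C(T0, R3) := ⟨fun z => (s z : R3),
      continuous_subtype_val.comp (continuousOn_iff_continuous_domRestrict.1 hs)⟩
    obtain ⟨g, hg⟩ := ContinuousMap.exists_restrict_eq hT0 f
    refine ⟨g, fun z hz => ?_⟩
    have := congrArg (fun k : C(T0, R3) => k ⟨z, hz⟩) hg
    exact this
  have hit : ∀ c : ℕ, Continuous (τ^[c]) := fun c => hτ.iterate c
  have hT0c : ∀ c : ℕ, ∀ z ∈ T0, τ^[c] z ∈ T0 := by
    intro c
    induction c with
    | zero => intro z hz; exact hz
    | succ c ih => intro z hz; rw [Function.iterate_succ_apply]; exact ih _ (hT0i z hz)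
  have hval : ∀ c : ZMod n, ∀ z, τ^[(c + 1).val] z = τ^[c.val] (τ z) := by
    intro c z
    rw [← Function.iterate_succ_apply, bum_iter hord (c + 1).val, bum_iter hord (c.val.succ)]
    have h1 : (c + 1).val % n = c.val.succ % n := by
      rw [ZMod.val_add, ZMod.val_one_eq_one_mod, Nat.succ_eq_add_one]
      simp
    rw [h1]
  let T : Set E := {z | ∀ c : ℕ, 1 / 2 ≤ ‖g (τ^[c] z)‖}
  let R : Set E := {z | ∃ c : ℕ, ‖g (τ^[c] z)‖ ≤ 1 / 2}
  have hgc : ∀ c : ℕ, Continuous fun z => ‖g (τ^[c] z)‖ :=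
    fun c => (g.continuous.comp (hit c)).norm
  have hT : IsClosed T := by
    have : T = ⋂ c : ℕ, {z | 1 / 2 ≤ ‖g (τ^[c] z)‖} := by
      ext z; simp [T]
    rw [this]
    exact isClosed_iInter fun c => isClosed_le continuous_const (hgc c)
  have hR : IsClosed R := by
    have : R = ⋃ c ∈ Finset.range n, {z | ‖g (τ^[c] z)‖ ≤ 1 / 2} := by
      ext z
      simp only [R, mem_ofPred_eq, mem_iUnion, Finset.mem_range, exists_prop]
      constructor
      · rintro ⟨c, hc⟩
        refine ⟨c % n, Nat.mod_lt _ hn, ?_⟩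
        rw [← bum_iter hord c]
        exact hc
      · rintro ⟨c, -, hc⟩
        exact ⟨c, hc⟩
    rw [this]
    exact isClosed_biUnion_finset fun c _ => isClosed_le (hgc c) continuous_const
  have hne : ∀ z ∈ T, ∀ c : ℕ, g (τ^[c] z) ≠ 0 := by
    intro z hz c h0
    have := hz c
    rw [h0, norm_zero] at this
    norm_num at this
  let sb : E → ZMod n → S2 := fun z c => bum_nrm (s z) (g (τ^[c.val] z))
  refine ⟨{ dvd := hdvd, T := T, R := R, hT := hT, hR := hR, cover := ?_, hTi := ?_, hRi := ?_,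
            sb := sb, hsb := ?_, hsbe := ?_ }, ?_⟩
  · rw [eq_univ_iff_forall]
    intro z
    by_cases h : z ∈ T
    · exact Or.inl h
    · right
      simp only [T, mem_ofPred_eq, not_forall, not_le] at h
      obtain ⟨c, hc⟩ := h
      exact ⟨c, hc.le⟩
  · intro z hz c
    have := hz (c + 1)
    rwa [Function.iterate_succ_apply] at this
  · rintro z ⟨c, hc⟩
    refine ⟨c + (n - 1), ?_⟩
    rw [← Function.iterate_succ_apply]
    have h1 : (c + (n - 1)).succ = c + n := by omega
    rw [h1, Function.iterate_add, hord]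
    exact hc
  · rw [continuousOn_iff_continuous_domRestrict]
    apply continuous_pi
    intro c
    have h1 : Continuous fun z : T => (‖g (τ^[c.val] z)‖⁻¹ • g (τ^[c.val] z) : R3) := by
      have h2 : Continuous fun z : T => g (τ^[c.val] (z : E)) :=
        (g.continuous.comp (hit _)).comp continuous_subtype_val
      refine Continuous.smul (h2.norm.inv₀ ?_) h2
      intro z
      exact norm_ne_zero_iff.2 (hne z z.2 _)
    rw [continuous_induced_rng]
    convert h1 using 1
    funext z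
    exact bum_nrm_val (hne z z.2 _)
  · intro z hz c
    apply Subtype.ext
    have h1 : τ^[(c + 1).val] z = τ^[c.val] (τ z) := hval c z
    change (bum_nrm (s (τ z)) (g (τ^[c.val] (τ z))) : R3) = bum_nrm (s z) (g (τ^[(c + 1).val] z))
    rw [← h1, bum_nrm_val (hne z hz _), bum_nrm_val (hne z hz _)]
  · intro z hz
    have hnorm : ∀ c : ℕ, ‖g (τ^[c] z)‖ = 1 := by
      intro c
      rw [hg _ (hT0c c z hz)]
      exact mem_sphere_zero_iff_norm.1 (s (τ^[c] z)).2
    refine ⟨fun c => by rw [hnorm]; norm_num, ?_, ?_⟩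
    · rintro ⟨c, hc⟩
      rw [hnorm] at hc
      norm_num at hc
    · apply Subtype.ext
      change (bum_nrm (s z) (g (τ^[(0 : ZMod n).val] z)) : R3) = s z
      have h0 : (0 : ZMod n).val = 0 := ZMod.val_zero
      have h1 : g (τ^[(0 : ZMod n).val] z) = s z := by
        rw [h0]; exact hg z hz
      have h2 : ‖(s z : R3)‖ = 1 := mem_sphere_zero_iff_norm.1 (s z).2
      rw [h1, bum_nrm_val (by rw [← norm_ne_zero_iff, h2]; norm_num), h2]
      simp

end Pool.Agent.CRC
end
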