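import Pool.Agent.Lib.MP_13800a_gt.StateDefs
import Pool.Agent.Lib.MP_13800a_gt.GoodI
import Pool.Agent.Lib.MP_13800a_gt.Mg.G003

section

/-! TASK S5a: finite closed covers by sets disjoint from their translates (closed balls of radius
less than a third of the minimal displacement; the minimal displacement is positive by compactness). -/

set_option autoImplicit false

namespace Pool.Agent.CRC

open Set Topology

/-- the minimal displacement is positive -/
private theorem State.exists_disp (X : State) : ∃ r : ℝ, 0 < r ∧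
    ∀ (x : X.S) (j : ℕ), 0 < j → j < 2 ^ X.k → r ≤ dist x (X.τ^[j] x) := by
  have hj : ∀ j : ℕ, ∃ r : ℝ, 0 < r ∧ (0 < j → j < 2 ^ X.k → ∀ x : X.S, r ≤ dist x (X.τ^[j] x)) := by
    intro j
    by_cases h : 0 < j ∧ j < 2 ^ X.k
    · obtain ⟨h0, h1⟩ := h
      have hc : Continuous fun x : X.S => dist x (X.τ^[j] x) :=
        continuous_id.dist (X.iso.continuous.iterate j)
      obtain ⟨x0, -, hx0⟩ := isCompact_univ.exists_isMinOn univ_nonempty hc.continuousOn
      refine ⟨dist x0 (X.τ^[j] x0), dist_pos.mpr (X.free x0 j h0 h1).symm, fun _ _ x => ?_⟩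
      exact hx0 (mem_univ x)
    · exact ⟨1, one_pos, fun h0 h1 => absurd ⟨h0, h1⟩ h⟩
  choose r hr0 hr using hj
  have hne : (Finset.range (2 ^ X.k)).Nonempty := ⟨0, Finset.mem_range.mpr (by positivity)⟩
  refine ⟨(Finset.range (2 ^ X.k)).inf' hne r, ?_, ?_⟩
  · rw [Finset.lt_inf'_iff]
    intro j _
    exact hr0 j
  · intro x j h0 h1
    exact (Finset.inf'_le r (Finset.mem_range.mpr h1)).trans (hr j h0 h1 x)

/-- a finite closed cover by sets disjoint from their translates -/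
theorem State.exists_closed_cover (X : State) : ∃ (N : ℕ) (B : Fin N → Set X.S),
    (∀ i, IsClosed (B i)) ∧ (∀ x, ∃ i, x ∈ B i) ∧
    ∀ i, ∀ x ∈ B i, ∀ j, 0 < j → j < 2 ^ X.k → X.τ^[j] x ∉ B i := by
  obtain ⟨r, hr, hd⟩ := X.exists_disp
  obtain ⟨t, htf, ht⟩ := Metric.totallyBounded_iff.mp
    (isCompact_univ (X := X.S)).totallyBounded (r / 3) (by linarith)
  have e := htf.toFinset.equivFin
  refine ⟨htf.toFinset.card, fun i => Metric.closedBall (e.symm i).1 (r / 3),
    fun i => Metric.isClosed_closedBall, ?_, ?_⟩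
  · intro x
    have hx := ht (mem_univ x)
    simp only [mem_iUnion, exists_prop] at hx
    obtain ⟨y, hy, hxy⟩ := hx
    refine ⟨e ⟨y, htf.mem_toFinset.mpr hy⟩, ?_⟩
    show x ∈ Metric.closedBall (e.symm (e ⟨y, htf.mem_toFinset.mpr hy⟩)).1 (r / 3)
    rw [Equiv.symm_apply_apply]
    exact Metric.ball_subset_closedBall hxy
  · intro i x hx j h0 h1 hmem
    have h2 := hd x j h0 h1
    have hx : dist x (e.symm i).1 ≤ r / 3 := hx
    have hmem : dist (X.τ^[j] x) (e.symm i).1 ≤ r / 3 := hmem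
    have h3 := dist_triangle_right x (X.τ^[j] x) (e.symm i).1
    linarith

end Pool.Agent.CRC
end

section

/-! TASK S3: the blow-up as a compact metric space with an isometry, and its product with the
sphere of the sup norm. -/

set_option autoImplicit false

namespace Pool.Agent.CRC

open Set Topology

section
variable {E : Type} [MetricSpace E] [CompactSpace E] {τ : E → E} {n n' : ℕ} [NeZero n']

theorem BUData.isClosed_set (D : BUData n n' τ) : IsClosed D.set := by
  have h1 : IsClosed {p : E × (ZMod n' → S2) | p.1 ∈ D.R} := D.hR.preimage continuous_fst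
  have h2 : ∀ c : ZMod n', IsClosed {p : E × (ZMod n' → S2) | p.1 ∈ D.T ∧
      p.2 c = D.sb p.1 (ZMod.castHom D.dvd (ZMod n) c)} := by
    intro c
    have hT : IsClosed {p : E × (ZMod n' → S2) | p.1 ∈ D.T} := D.hT.preimage continuous_fst
    have hf : ContinuousOn (fun p : E × (ZMod n' → S2) =>
        (p.2 c, D.sb p.1 (ZMod.castHom D.dvd (ZMod n) c))) {p | p.1 ∈ D.T} := by
      apply ContinuousOn.prodMk
      · exact ((continuous_apply c).comp continuous_snd).continuousOn
      · have h3 : ContinuousOn (fun p : E × (ZMod n' → S2) => D.sb p.1) {p | p.1 ∈ D.T} :=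
          D.hsb.comp continuous_fst.continuousOn (fun p hp => hp)
        exact (continuous_apply (ZMod.castHom D.dvd (ZMod n) c)).comp_continuousOn h3
    exact hf.preimage_isClosed_of_isClosed hT isClosed_diagonal
  have h3 : D.set = {p : E × (ZMod n' → S2) | p.1 ∈ D.R} ∪
      ⋂ c : ZMod n', {p : E × (ZMod n' → S2) | p.1 ∈ D.T ∧
        p.2 c = D.sb p.1 (ZMod.castHom D.dvd (ZMod n) c)} := by
    ext p
    simp only [BUData.set, mem_union, mem_iInter, mem_ofPred_eq]
    constructor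
    · rintro (h | ⟨h, h'⟩)
      · exact Or.inl h
      · exact Or.inr fun c => ⟨h, h' c⟩
    · rintro (h | h)
      · exact Or.inl h
      · exact Or.inr ⟨(h 0).1, fun c => (h c).2⟩
  rw [h3]
  exact h1.union (isClosed_iInter h2)

instance (D : BUData n n' τ) : CompactSpace D.set :=
  isCompact_iff_compactSpace.mp D.isClosed_set.isCompact

theorem BUData.surj (D : BUData n n' τ) : ∀ z : E, ∃ p : D.set, p.1.1 = z := by
  intro z
  have hz : z ∈ D.T ∪ D.R := by rw [D.cover]; exact mem_univ z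
  rcases hz with h | h
  · exact ⟨⟨(z, fun c => D.sb z (ZMod.castHom D.dvd (ZMod n) c)), Or.inr ⟨h, fun _ => rfl⟩⟩, rfl⟩
  · exact ⟨⟨(z, fun _ => D.sb z 0), Or.inl h⟩, rfl⟩

private theorem dist_shift (x y : ZMod n' → S2) :
    dist (fun c => x (c + 1)) (fun c => y (c + 1)) = dist x y := by
  apply le_antisymm
  · rw [dist_pi_le_iff dist_nonneg]
    intro c
    exact dist_le_pi_dist x y (c + 1)
  · rw [dist_pi_le_iff dist_nonneg]
    intro c
    have h := dist_le_pi_dist (fun c => x (c + 1)) (fun c => y (c + 1)) (c - 1)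
    simpa using h

theorem BUData.isometry_map (D : BUData n n' τ) (hτ : Isometry τ) : Isometry D.map := by
  apply Isometry.of_dist_eq
  intro x y
  rw [Subtype.dist_eq, Subtype.dist_eq, Prod.dist_eq, Prod.dist_eq]
  have h1 : dist (D.map x).1.1 (D.map y).1.1 = dist x.1.1 y.1.1 := hτ.dist_eq _ _
  have h2 : dist (D.map x).1.2 (D.map y).1.2 = dist x.1.2 y.1.2 := dist_shift _ _
  rw [h1, h2]

theorem BUData.map_iterate (D : BUData n n' τ) (i : ℕ) (p : D.set) :
    (D.map^[i] p).1 = (τ^[i] p.1.1, fun c => p.1.2 (c + i)) := by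
  induction i with
  | zero => simp
  | succ i ih =>
    rw [Function.iterate_succ_apply']
    have h : (D.map (D.map^[i] p)).1 =
        (τ (D.map^[i] p).1.1, fun c => (D.map^[i] p).1.2 (c + 1)) := rfl
    rw [h, ih, Function.iterate_succ_apply']
    congr 1
    funext c
    push_cast
    rw [add_assoc, add_comm (1 : ZMod n')]

theorem BUData.map_ord (D : BUData n n' τ) (hord : τ^[n] = id) : D.map^[n'] = id := by
  funext p
  apply Subtype.ext
  rw [D.map_iterate]
  obtain ⟨k, hk⟩ := D.dvd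
  have h1 : τ^[n'] = id := by
    rw [hk, Function.iterate_mul, hord, Function.iterate_id]
  rw [h1]
  simp

end

theorem rotS_isometry (n : ℕ) : Isometry (rotS n) := by
  apply Isometry.of_dist_eq
  intro x y
  rw [Subtype.dist_eq, Subtype.dist_eq, dist_eq_norm, dist_eq_norm]
  show ‖zt n • x.1 - zt n • y.1‖ = _
  rw [← smul_sub, norm_smul, norm_zt, one_mul]

theorem rotS_iterate (n i : ℕ) (z : SB n) : ((rotS n)^[i] z).1 = zt n ^ i • z.1 := by
  induction i with
  | zero => simp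
  | succ i ih =>
    rw [Function.iterate_succ_apply']
    show zt n • ((rotS n)^[i] z).1 = _
    rw [ih, smul_smul, pow_succ']

theorem rotS_ord (n : ℕ) (hn : 0 < n) : (rotS n)^[n] = id := by
  funext z
  apply Subtype.ext
  rw [rotS_iterate, zt_pow_self, one_smul]
  rfl

theorem rotS_free (n : ℕ) (z : SB n) (i : ℕ) (h0 : 0 < i) (h1 : i < n) :
    (rotS n)^[i] z ≠ z := by
  intro h
  have h2 : zt n ^ i • z.1 = z.1 := by rw [← rotS_iterate, h]
  have h3 : (zt n ^ i - 1) • z.1 = 0 := by rw [sub_smul, h2, one_smul, sub_self]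
  rcases smul_eq_zero.mp h3 with h4 | h4
  · exact (zt_isPrimitiveRoot (by omega : n ≠ 0)).pow_ne_one_of_pos_of_lt h0.ne' h1
      (sub_eq_zero.mp h4)
  · have h5 := z.2
    rw [mem_sphere_zero_iff_norm, h4, norm_zero] at h5
    exact zero_ne_one h5

instance (n : ℕ) : CompactSpace (SB n) := isCompact_iff_compactSpace.mp (isCompact_sphere _ _)

theorem nonempty_SB (n : ℕ) (hn : 0 < n) : Nonempty (SB n) := by
  haveI : Nonempty (Fin n) := ⟨⟨0, hn⟩⟩
  refine ⟨⟨fun _ => 1, ?_⟩⟩
  rw [mem_sphere_zero_iff_norm, pi_norm_const, norm_one]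

end Pool.Agent.CRC
end

section

/-! TASK S4: one step. `n = 2^k`, `g = 2^b` with `1/g ≤ δ`, `b ≥ 1`; `D = exists_BUData (2^k)
(2^k * 2^b)`; `Y = D.set × SB (2^k * 2^b)` with `Prod.map D.map (rotS _)`; `q = p ↦ p.1.1.1`,
`s' p = p.1.1.2 0`. `good_infl`, `good_bu`, `good_sphere`; `M = (m+1) 2^b - 1 ≥ 2^k` because
`(m+1)/2^k > δ ≥ 1/2^b`. -/

set_option autoImplicit false

namespace Pool.Agent.CRC

open Set Topology

private theorem stepAux (k b m : ℕ) (δ : ℝ) (hb : 1 / (2 : ℝ) ^ b ≤ δ)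
    (hc : δ < ((m : ℝ) + 1) / 2 ^ k) : 2 ^ k ≤ (m + 1) * 2 ^ b - 1 := by
  have h2 : (0 : ℝ) < 2 ^ b := by positivity
  have h3 : (0 : ℝ) < 2 ^ k := by positivity
  have h1 : 1 / (2 : ℝ) ^ b < ((m : ℝ) + 1) / 2 ^ k := lt_of_le_of_lt hb hc
  rw [div_lt_div_iff₀ h2 h3] at h1
  have h4 : (1 * 2 ^ k : ℕ) < (m + 1) * 2 ^ b := by exact_mod_cast h1
  omega

private theorem stepRatio (k b m : ℕ) (δ : ℝ) (hb : 1 / (2 : ℝ) ^ b ≤ δ)
    (hM : 2 ^ k ≤ (m + 1) * 2 ^ b - 1) :
    ((m : ℝ) + 1) / 2 ^ k - δ ≤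
      ((((m + 1) * 2 ^ b - 1 - 2 ^ k : ℕ) : ℝ) + 1) / 2 ^ (k + b) := by
  have h2 : (0 : ℝ) < 2 ^ b := by positivity
  have h3 : (0 : ℝ) < 2 ^ k := by positivity
  have h4 : 0 < (m + 1) * 2 ^ b := by positivity
  have h5 : ((((m + 1) * 2 ^ b - 1 - 2 ^ k : ℕ) : ℝ) + 1) = ((m : ℝ) + 1) * 2 ^ b - 2 ^ k := by
    have h6 : ((m + 1) * 2 ^ b - 1 - 2 ^ k) + 1 + 2 ^ k = (m + 1) * 2 ^ b := by omega
    have h7 : ((((m + 1) * 2 ^ b - 1 - 2 ^ k : ℕ) : ℝ) + 1 + 2 ^ k) =
        ((m : ℝ) + 1) * 2 ^ b := by exact_mod_cast h6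
    linarith
  rw [h5, pow_add]
  have h8 : (((m : ℝ) + 1) * 2 ^ b - 2 ^ k) / (2 ^ k * 2 ^ b) =
      ((m : ℝ) + 1) / 2 ^ k - 1 / 2 ^ b := by
    field_simp
  rw [h8]
  linarith

private theorem good_cast {Q : Type} [TopologicalSpace Q] {τ : Q → Q} {n n' m : ℕ} (h : n = n')
    (hg : Good n τ m) : Good n' τ m := h ▸ hg

private theorem dist_fst_le' {A B : Type} [PseudoMetricSpace A] [PseudoMetricSpace B]
    (x y : A × B) : dist x.1 y.1 ≤ dist x y := by
  rw [Prod.dist_eq]; exact le_max_left _ _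

private theorem iter_cast {Q : Type} {τ : Q → Q} {n n' : ℕ} (h : n' = n)
    (hg : τ^[n] = id) : τ^[n'] = id := h ▸ hg

/-- the state of a blow-up times a sphere -/
private noncomputable def stepState (X : State) (b : ℕ)
    (D : BUData (2 ^ X.k) (2 ^ X.k * 2 ^ b) X.τ)
    (hM : 2 ^ X.k ≤ (X.m + 1) * 2 ^ b - 1) : State :=
  haveI : Nonempty D.set := by
    obtain ⟨z⟩ := X.ne
    obtain ⟨p, -⟩ := D.surj z
    exact ⟨p⟩
  haveI : Nonempty (SB (2 ^ (X.k + b))) := nonempty_SB _ (by positivity)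
  have hord : X.τ^[2 ^ X.k] = id := funext X.ord
  have hDm : D.map^[2 ^ (X.k + b)] = id := iter_cast (pow_add _ _ _) (D.map_ord hord)
  { S := D.set × SB (2 ^ (X.k + b))
    k := X.k + b
    τ := Prod.map D.map (rotS (2 ^ (X.k + b)))
    iso := (D.isometry_map X.iso).prodMap (rotS_isometry _)
    ord := fun x => by
      rw [Prod.map_iterate, hDm, rotS_ord _ (by positivity)]
      rfl
    free := fun x i h0 h1 h => by
      rw [Prod.map_iterate] at h
      exact rotS_free _ x.2 i h0 h1 (congrArg Prod.snd h)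
    m := (X.m + 1) * 2 ^ b - 1 - 2 ^ X.k
    good := by
      have g1 := good_infl X.iso.continuous (b := b) hord X.good
      have g2 := good_bu X.iso.continuous hord D g1 hM
      exact good_sphere (D.isometry_map X.iso).continuous hDm
        (good_cast (pow_add _ _ _).symm g2) }

theorem State.step (X : State) (δ : ℝ) (hδ : 0 < δ) (hc : δ < X.ratio) (T0 : Set X.S)
    (hT0 : IsClosed T0) (hT0i : ∀ z ∈ T0, X.τ z ∈ T0) (s : X.S → S2) (hs : ContinuousOn s T0) :
    ∃ (Y : State) (f : Cov Y X) (s' : Y.S → S2), X.k < Y.k ∧ Continuous s' ∧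
      (∀ y, f.q y ∈ T0 → s' y = s (f.q y)) ∧ X.ratio - δ ≤ Y.ratio := by
  obtain ⟨b0, hb0⟩ := exists_pow_lt_of_lt_one hδ (by norm_num : (1 / 2 : ℝ) < 1)
  have hb : 1 / (2 : ℝ) ^ (b0 + 1) ≤ δ := by
    have h1 : 1 / (2 : ℝ) ^ (b0 + 1) ≤ (1 / 2) ^ b0 := by
      rw [one_div_pow]
      exact one_div_le_one_div_of_le (by positivity)
        (pow_le_pow_right₀ (by norm_num) (Nat.le_succ _))
    linarith
  have hM := stepAux X.k (b0 + 1) X.m δ hb hc
  have hord : X.τ^[2 ^ X.k] = id := funext X.ord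
  obtain ⟨D, hD⟩ := exists_BUData X.iso.continuous (2 ^ X.k) (2 ^ X.k * 2 ^ (b0 + 1))
    (by positivity) (Dvd.intro _ rfl) hord T0 hT0 hT0i s hs
  refine ⟨stepState X (b0 + 1) D hM, ⟨fun p => p.1.1.1, ?_, ?_, ?_, ?_⟩, fun p => p.1.1.2 0,
    ?_, ?_, ?_, ?_⟩
  · intro x y
    exact (dist_fst_le' x.1.1 y.1.1).trans (dist_fst_le' x y)
  · intro z
    obtain ⟨p, hp⟩ := D.surj z
    obtain ⟨w⟩ := nonempty_SB (2 ^ (X.k + (b0 + 1))) (by positivity)
    exact ⟨(p, w), hp⟩
  · intro y
    rfl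
  · exact Nat.le_add_right _ _
  · show X.k < X.k + (b0 + 1)
    omega
  · exact (continuous_apply (0 : ZMod (2 ^ X.k * 2 ^ (b0 + 1)))).comp
      (continuous_snd.comp (continuous_subtype_val.comp continuous_fst))
  · intro y hy
    obtain ⟨h1, h2, h3⟩ := hD _ hy
    rcases y.1.2 with h | ⟨-, h⟩
    · exact absurd h h2
    · have h4 := h 0
      rw [map_zero] at h4
      exact h4.trans h3
  · exact stepRatio X.k (b0 + 1) X.m δ hb hM

end Pool.Agent.CRC
end

section

/-! TASK S5b: one step of the extension of partial maps to the 2-sphere. -/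

set_option autoImplicit false

namespace Pool.Agent.CRC

open Set Topology

/-- the map `s` on the invariant hull of the intersection -/
private theorem ext1_data (X Y : State) (f : Cov Y X) (C B : Set X.S) (hC : IsClosed C)
    (hB : IsClosed B) (hBd : ∀ x ∈ B, ∀ j, 0 < j → j < 2 ^ X.k → X.τ^[j] x ∉ B)
    (a : Y.S → S2) (ha : ContinuousOn a (f.q ⁻¹' C)) :
    ∃ (T0 : Set Y.S) (s : Y.S → S2), IsClosed T0 ∧ (∀ z ∈ T0, Y.τ z ∈ T0) ∧
      ContinuousOn s T0 ∧ (∀ y, f.q y ∈ C → f.q y ∈ B → y ∈ T0 ∧ s y = a y) := by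
  classical
  set P0 : Set Y.S := f.q ⁻¹' (C ∩ B) with hP0
  have hτ : Continuous Y.τ := Y.iso.continuous
  have hP0c : IsClosed P0 := (hC.inter hB).preimage f.continuous
  set P' : Set Y.S := ⋃ j ∈ {j : ℕ | 0 < j ∧ j < 2 ^ X.k}, Y.τ^[j] '' P0 with hP'
  have hP'c : IsClosed P' := by
    have hfin : {j : ℕ | 0 < j ∧ j < 2 ^ X.k}.Finite :=
      (Set.finite_lt_nat (2 ^ X.k)).subset fun j hj => hj.2
    exact hfin.isClosed_biUnion fun j _ =>
      (hP0c.isCompact.image (hτ.iterate j)).isClosed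
  have hdisj : ∀ y ∈ P', y ∉ P0 := by
    intro y hy hy0
    rw [hP', mem_iUnion₂] at hy
    obtain ⟨j, ⟨hj0, hj1⟩, y0, hy00, rfl⟩ := hy
    rw [hP0, mem_preimage, f.iter] at hy0
    rw [hP0, mem_preimage] at hy00
    exact hBd _ hy00.2 j hj0 hj1 hy0.2
  refine ⟨P0 ∪ P', fun y => if y ∈ P0 then a y else a (Classical.arbitrary Y.S),
    hP0c.union hP'c, ?_, ?_, ?_⟩
  · -- invariance
    have key : ∀ j : ℕ, j < 2 ^ X.k → ∀ y0 ∈ P0, Y.τ (Y.τ^[j] y0) ∈ P0 ∪ P' := by
      intro j hj y0 hy0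
      rw [← Function.iterate_succ_apply' Y.τ j y0]
      rcases Nat.lt_or_ge (j + 1) (2 ^ X.k) with h | h
      · right
        rw [hP', mem_iUnion₂]
        exact ⟨j + 1, ⟨Nat.succ_pos j, h⟩, y0, hy0, rfl⟩
      · left
        have hj' : j + 1 = 2 ^ X.k := by omega
        rw [hP0, mem_preimage, Nat.succ_eq_add_one, hj', f.iter, X.ord]
        exact hy0
    intro z hz
    rcases hz with hz | hz
    · exact key 0 (by positivity) z hz
    · rw [hP', mem_iUnion₂] at hz
      obtain ⟨j, ⟨hj0, hj1⟩, y0, hy00, rfl⟩ := hz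
      exact key j hj1 y0 hy00
  · -- continuity
    refine ContinuousOn.union_of_isClosed ?_ ?_ hP0c hP'c
    · refine (ha.mono fun y hy => hy.1).congr fun y hy => ?_
      simp only [if_pos hy]
    · refine (continuousOn_const (c := a (Classical.arbitrary Y.S))).congr fun y hy => ?_
      simp only [if_neg (hdisj y hy)]
  · intro y hyC hyB
    have hy : y ∈ P0 := ⟨hyC, hyB⟩
    exact ⟨Or.inl hy, by simp only [if_pos hy]⟩

/-- `T0 := ⋃_{j < 2^k} Y.τ^j (f.q ⁻¹' (C ∩ B))` (`k = X.k`) is closed, `Y.τ`-invariant (because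
`f.q ⁻¹' (C ∩ B)` is invariant under `Y.τ^(2^k)`) and the union is disjoint; apply `State.step` to
the map `s` which is `a` on the piece `j = 0` and constant on the other pieces; then
`a' = a ∘ g.q` on the preimage of `C` and `a' = s'` on the preimage of `B`. -/
theorem State.extend_step (X Y : State) (f : Cov Y X) (C B : Set X.S) (hC : IsClosed C)
    (hB : IsClosed B) (hBd : ∀ x ∈ B, ∀ j, 0 < j → j < 2 ^ X.k → X.τ^[j] x ∉ B)
    (a : Y.S → S2) (ha : ContinuousOn a (f.q ⁻¹' C)) (δ : ℝ) (hδ : 0 < δ) (hc : δ < Y.ratio) :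
    ∃ (Z : State) (g : Cov Z Y) (a' : Z.S → S2), ContinuousOn a' ((f.q ∘ g.q) ⁻¹' (C ∪ B)) ∧
      (∀ z, f.q (g.q z) ∈ C → a' z = a (g.q z)) ∧ Y.ratio - δ ≤ Z.ratio := by
  classical
  obtain ⟨T0, s, hT0, hT0i, hs, hsa⟩ := ext1_data X Y f C B hC hB hBd a ha
  obtain ⟨Z, g, s', -, hs', hss, hr⟩ := State.step Y δ hδ hc T0 hT0 hT0i s hs
  refine ⟨Z, g, fun z => if f.q (g.q z) ∈ C then a (g.q z) else s' z, ?_, ?_, hr⟩
  · rw [preimage_union]
    refine ContinuousOn.union_of_isClosed ?_ ?_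
      (hC.preimage (f.continuous.comp g.continuous)) (hB.preimage (f.continuous.comp g.continuous))
    · refine (ha.comp g.continuous.continuousOn fun z hz => hz).congr fun z hz => ?_
      have hz' : f.q (g.q z) ∈ C := hz
      simp only [if_pos hz', Function.comp]
    · refine hs'.continuousOn.congr fun z hz => ?_
      have hz' : f.q (g.q z) ∈ B := hz
      by_cases hzC : f.q (g.q z) ∈ C
      · simp only [if_pos hzC]
        obtain ⟨h1, h2⟩ := hsa (g.q z) hzC hz'
        rw [hss z h1, h2]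
      · simp only [if_neg hzC]
  · intro z hz
    simp only [if_pos hz]

end Pool.Agent.CRC
end

section

/-! TASK S5c: extension of arbitrary partial maps to the 2-sphere. -/

set_option autoImplicit false

namespace Pool.Agent.CRC

open Set Topology

/-- induction over the members `B 0, …, B (N-1)` of `X.exists_closed_cover`, with `δ / (N + 1)` in
each step, starting from `Y = X`, `C = A`. -/
theorem State.extend (X : State) (δ : ℝ) (hδ : 0 < δ) (hc : δ < X.ratio) (A : Set X.S)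
    (hA : IsClosed A) (a : X.S → S2) (ha : ContinuousOn a A) :
    ∃ (Y : State) (f : Cov Y X) (a' : Y.S → S2), Continuous a' ∧
      (∀ y, f.q y ∈ A → a' y = a (f.q y)) ∧ X.ratio - δ ≤ Y.ratio := by
  obtain ⟨N, B, hBc, hBcov, hBd⟩ := X.exists_closed_cover
  set η : ℝ := δ / (N + 1) with hη
  have hN : (0 : ℝ) < N + 1 := by positivity
  have hη0 : 0 < η := div_pos hδ hN
  have hηδ : (N + 1) * η = δ := by
    rw [hη]
    field_simp
  have key : ∀ n : ℕ, n ≤ N → ∃ C : Set X.S, IsClosed C ∧ A ⊆ C ∧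
      (∀ i : Fin N, (i : ℕ) < n → B i ⊆ C) ∧
      ∃ (Y : State) (f : Cov Y X) (a' : Y.S → S2), ContinuousOn a' (f.q ⁻¹' C) ∧
        (∀ y, f.q y ∈ A → a' y = a (f.q y)) ∧ X.ratio - n * η ≤ Y.ratio := by
    intro n
    induction n with
    | zero =>
      intro _
      refine ⟨A, hA, Subset.rfl, fun i hi => absurd hi (Nat.not_lt_zero _), X, Cov.refl X, a,
        ha, fun y _ => rfl, ?_⟩
      simp
    | succ n ih =>
      intro hn
      obtain ⟨C, hC, hAC, hBC, Y, f, a', ha', haA, hr⟩ := ih (by omega)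
      have hnN : ((n : ℝ) + 1) ≤ N := by exact_mod_cast hn
      have hηY : η < Y.ratio := by
        have h1 : (n + 1) * η ≤ N * η := mul_le_mul_of_nonneg_right hnN hη0.le
        nlinarith
      obtain ⟨Z, g, a'', ha'', haC, hrZ⟩ := State.extend_step X Y f C (B ⟨n, hn⟩) hC
        (hBc _) (hBd _) a' ha' η hη0 hηY
      refine ⟨C ∪ B ⟨n, hn⟩, hC.union (hBc _), hAC.trans subset_union_left, ?_, Z, f.comp g,
        a'', ha'', ?_, ?_⟩
      · intro i hi
        rcases Nat.lt_succ_iff_lt_or_eq.1 hi with h | h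
        · exact (hBC i h).trans subset_union_left
        · have : i = ⟨n, hn⟩ := Fin.ext h
          rw [this]
          exact subset_union_right
      · intro z hz
        have hz' : f.q (g.q z) ∈ A := hz
        rw [haC z (hAC hz'), haA _ hz']
        rfl
      · push_cast
        linarith
  obtain ⟨C, hC, hAC, hBC, Y, f, a', ha', haA, hr⟩ := key N le_rfl
  have hCuniv : C = univ := by
    refine eq_univ_of_forall fun x => ?_
    obtain ⟨i, hi⟩ := hBcov x
    exact hBC i i.2 hi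
  refine ⟨Y, f, a', ?_, haA, ?_⟩
  · rw [hCuniv, preimage_univ] at ha'
    exact continuousOn_univ.1 ha'
  · nlinarith

end Pool.Agent.CRC
end

section

/-! TASK M2: one 4-subset (`phi4`, `g4` and their properties are in `Macro2a.lean`).

Let `c0 > 0` be a lower bound of `∑ φ i` on `Y.S` (compact), `16 η < c0`.
`g = (φ (ι a) - φ (ι 0))_{a = 1,2,3} : Y.S → R3`, `A = {‖g‖ ≥ η}`, `a = g/‖g‖` on `A`.
`State.extend` gives `Z`, `w : Z.S → S2` with `w = g/‖g‖` over `A`.
With `m = min_a φ (ι a)`: `ψ_a = φ (ι a) + m w_a / 2` for `a = 1,2,3`, `ψ_0 = φ (ι 0)`;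
`φ' (ι a) = ψ_a - min_b ψ_b`, `φ' i = φ i` for the other `i` (all composed with `q`).
* `φ' i > 0 → φ i > 0`: if `m = 0` then `ψ = φ`, `min ψ = 0`; if `m > 0` all four are positive.
* some `φ' (ι a) = 0`.
* no common zero: if all `φ'` vanish at a point then `ψ_0 = ψ_1 = ψ_2 = ψ_3`, so `g = -(m/2) w`.
  If `‖g‖ ≥ η` then also `g = ‖g‖ w`, contradiction. So `m/2 = ‖g‖ < η` and all four `φ (ι a)` are
  `≤ m + 2 η ≤ 4 η`, all others are `0`: `∑ φ ≤ 16 η < c0`, contradiction. -/

set_option autoImplicit false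

namespace Pool.Agent.CRC

open Set Topology

private lemma m2_phi4_cont {X : Type} [TopologicalSpace X] (f : Fin 4 → X → ℝ) (w : X → R3)
    (hf : ∀ a, Continuous (f a)) (hw : Continuous w) (a : Fin 4) :
    Continuous (fun x => phi4 (fun b => f b x) (w x) a) := by
  have hm : Continuous (fun x => min (min (f 0 x) (f 1 x)) (min (f 2 x) (f 3 x))) :=
    ((hf 0).min (hf 1)).min ((hf 2).min (hf 3))
  have hwi : ∀ i : Fin 3, Continuous (fun x => w x i) := fun i => by fun_prop
  have hpsi : ∀ b, Continuous (fun x => psi4 (fun b => f b x) (w x) b) := by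
    intro b
    have h0 := hwi 0
    have h1 := hwi 1
    have h2 := hwi 2
    have f0 := hf 0
    have f1 := hf 1
    have f2 := hf 2
    have f3 := hf 3
    fin_cases b
    · simp only [psi4]
      simp
      exact f0
    · simp only [psi4]
      simp
      exact f1.add ((hm.div_const 2).mul h0)
    · simp only [psi4]
      simp
      exact f2.add ((hm.div_const 2).mul h1)
    · simp only [psi4]
      simp
      exact f3.add ((hm.div_const 2).mul h2)
  simp only [phi4]
  exact (hpsi a).sub (((hpsi 0).min (hpsi 1)).min ((hpsi 2).min (hpsi 3)))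

private lemma m2_g4_cont {X : Type} [TopologicalSpace X] (f : Fin 4 → X → ℝ)
    (hf : ∀ a, Continuous (f a)) : Continuous (fun x => g4 (fun b => f b x)) := by
  have f0 := hf 0
  have f1 := hf 1
  have f2 := hf 2
  have f3 := hf 3
  unfold g4
  refine (PiLp.continuous_toLp 2 _).comp ?_
  refine continuous_pi fun i => ?_
  fin_cases i
  · exact f1.sub f0
  · exact f2.sub f0
  · exact f3.sub f0

theorem kill_one (Y : State) (δ : ℝ) (hδ : 0 < δ) (hc : δ < Y.ratio) {m : ℕ}
    (φ : Fin m → Y.S → ℝ) (hφ : IsFam φ) (ι : Fin 4 → Fin m) (hι : Function.Injective ι) :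
    ∃ (Z : State) (g : Cov Z Y) (φ' : Fin m → Z.S → ℝ), IsFam φ' ∧
      (∀ i z, 0 < φ' i z → 0 < φ i (g.q z)) ∧ (∀ z, ∃ a, φ' (ι a) z = 0) ∧
      Y.ratio - δ ≤ Z.ratio := by
  classical
  -- lower bound of the sum
  obtain ⟨c0, hc0, hcs⟩ : ∃ c0 : ℝ, 0 < c0 ∧ ∀ x, c0 ≤ ∑ i, φ i x := by
    have hcont : Continuous (fun x => ∑ i, φ i x) := continuous_finsetSum _ fun i _ => hφ.cont i
    obtain ⟨x0, _, hx0⟩ := isCompact_univ.exists_isMinOn (univ_nonempty (α := Y.S))
      hcont.continuousOn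
    refine ⟨∑ i, φ i x0, ?_, fun x => hx0 (mem_univ x)⟩
    obtain ⟨i, hi⟩ := hφ.pos x0
    exact lt_of_lt_of_le hi (Finset.single_le_sum (f := fun i => φ i x0)
      (fun j _ => hφ.nonneg j x0) (Finset.mem_univ i))
  set η : ℝ := c0 / 17 with hη
  have hη0 : 0 < η := by positivity
  -- the map g
  let f : Fin 4 → Y.S → ℝ := fun a x => φ (ι a) x
  have hf : ∀ a, Continuous (f a) := fun a => hφ.cont (ι a)
  let G : Y.S → R3 := fun x => g4 (fun b => f b x)
  have hG : Continuous G := m2_g4_cont f hf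
  let A : Set Y.S := {x | η ≤ ‖G x‖}
  have hA : IsClosed A := isClosed_le continuous_const hG.norm
  have hbase : ∃ b : R3, b ∈ Metric.sphere (0 : R3) 1 :=
    ⟨EuclideanSpace.single 0 1, by simp⟩
  obtain ⟨b0, hb0⟩ := hbase
  let α : Y.S → S2 := fun x => if h : G x ≠ 0 then
    ⟨‖G x‖⁻¹ • G x, by
      rw [mem_sphere_zero_iff_norm, norm_smul, norm_inv, norm_norm]
      exact inv_mul_cancel₀ (norm_ne_zero_iff.2 h)⟩ else ⟨b0, hb0⟩
  have hαv : ∀ x ∈ A, ((α x : S2) : R3) = ‖G x‖⁻¹ • G x := by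
    intro x hx
    have hne : G x ≠ 0 := by
      intro h0
      have hx' : η ≤ ‖G x‖ := hx
      rw [h0, norm_zero] at hx'
      linarith
    simp only [α, dif_pos hne]
  have hα : ContinuousOn α A := by
    rw [Topology.IsInducing.subtypeVal.continuousOn_iff]
    have h1 : ContinuousOn (fun x => ‖G x‖⁻¹ • G x) A := by
      refine ContinuousOn.smul (ContinuousOn.inv₀ hG.norm.continuousOn ?_) hG.continuousOn
      intro x hx
      have hx' : η ≤ ‖G x‖ := hx
      exact (lt_of_lt_of_le hη0 hx').ne'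
    exact h1.congr fun x hx => hαv x hx
  obtain ⟨Z, q, w, hw, hwA, hr⟩ := Y.extend δ hδ hc A hA α hα
  have hqc := q.continuous
  let φ' : Fin m → Z.S → ℝ := fun i z => if h : ∃ a, ι a = i then
    phi4 (fun b => f b (q.q z)) (w z : R3) h.choose else φ i (q.q z)
  have hφι : ∀ a z, φ' (ι a) z = phi4 (fun b => f b (q.q z)) (w z : R3) a := by
    intro a z
    have h : ∃ a', ι a' = ι a := ⟨a, rfl⟩
    simp only [φ', dif_pos h]
    rw [hι h.choose_spec]
  have hφo : ∀ i, (¬ ∃ a, ι a = i) → ∀ z, φ' i z = φ i (q.q z) := by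
    intro i h z
    simp only [φ', dif_neg h]
  refine ⟨Z, q, φ', ⟨?_, ?_, ?_⟩, ?_, ?_, hr⟩
  · intro i
    by_cases h : ∃ a, ι a = i
    · obtain ⟨a, rfl⟩ := h
      have h1 : φ' (ι a) = fun z => phi4 (fun b => f b (q.q z)) (w z : R3) a := funext (hφι a)
      rw [h1]
      exact m2_phi4_cont (fun b z => f b (q.q z)) (fun z => (w z : R3))
        (fun b => (hf b).comp hqc) (continuous_subtype_val.comp hw) a
    · have h1 : φ' i = fun z => φ i (q.q z) := funext (hφo i h)
      rw [h1]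
      exact (hφ.cont i).comp hqc
  · intro i z
    by_cases h : ∃ a, ι a = i
    · obtain ⟨a, rfl⟩ := h
      rw [hφι]
      exact phi4_nonneg _ _ _
    · rw [hφo i h]
      exact hφ.nonneg _ _
  · intro z
    by_contra hn
    push Not at hn
    have hz4 : ∀ a, phi4 (fun b => f b (q.q z)) (w z : R3) a = 0 := by
      intro a
      apply le_antisymm
      · rw [← hφι]; exact hn _
      · exact phi4_nonneg _ _ _
    have hle := phi4_all_zero (fun b => f b (q.q z)) (fun a => hφ.nonneg _ _) (w z : R3)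
      (by have := (w z).2; rwa [mem_sphere_zero_iff_norm] at this) η hη0
      (by
        intro h
        have hzA : q.q z ∈ A := h
        rw [hwA z hzA]
        exact hαv _ hzA) hz4
    have hzo : ∀ i, (¬ ∃ a, ι a = i) → φ i (q.q z) = 0 := by
      intro i h
      apply le_antisymm
      · rw [← hφo i h]; exact hn _
      · exact hφ.nonneg _ _
    have hsum : ∑ i, φ i (q.q z) = ∑ a, φ (ι a) (q.q z) := by
      rw [← Finset.sum_image (s := Finset.univ) (g := ι) (f := fun i => φ i (q.q z))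
        (fun a _ b _ h => hι h)]
      symm
      apply Finset.sum_subset (Finset.subset_univ _)
      intro i _ hi
      apply hzo
      rintro ⟨a, rfl⟩
      exact hi (Finset.mem_image_of_mem _ (Finset.mem_univ a))
    have h1 := hcs (q.q z)
    rw [hsum, Fin.sum_univ_four] at h1
    have e0 : φ (ι 0) (q.q z) ≤ 4 * η := hle 0
    have e1 : φ (ι 1) (q.q z) ≤ 4 * η := hle 1
    have e2 : φ (ι 2) (q.q z) ≤ 4 * η := hle 2
    have e3 : φ (ι 3) (q.q z) ≤ 4 * η := hle 3
    have : c0 ≤ 16 * η := by linarith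
    rw [hη] at this
    linarith
  · intro i z h
    by_cases h' : ∃ a, ι a = i
    · obtain ⟨a, rfl⟩ := h'
      rw [hφι] at h
      exact pos_of_phi4_pos _ (fun b => hφ.nonneg _ _) _ a h
    · rwa [hφo i h'] at h
  · intro z
    obtain ⟨a, ha⟩ := exists_phi4_eq_zero (fun b => f b (q.q z)) (w z : R3)
    exact ⟨a, by rw [hφι]; exact ha⟩

end Pool.Agent.CRC
end
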