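import Pool.Agent.Lib.MP_13800a_gt.OrbDefs
import Pool.Agent.Lib.MP_13800a_gt.TowerLim
import Pool.Agent.Lib.MP_13800a_gt.OrbFacts
import Pool.Agent.Lib.MP_13800a_gt.Mat

section

/-! TASK Y1: a cover of bounded multiplicity as disjoint layers of functions.

`FinDim Y` with number `n`; `a = n + 1`. Given an open cover, take the refinement `V_i` (finite,
each point in at most `a` members), `φ_i y = infDist y (V_i)ᶜ` (or `1` if `V_i = univ`), for
`σ` nonempty with `b + 1` elements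
`ψ_σ = (∏_{i ∈ σ} φ_i) (∏_{i ∈ σ, j ∉ σ} max (φ_i - φ_j) 0)`.
The sets `{ψ_σ > 0}` for `σ` of the same cardinality are disjoint, and for every `y`, `σ = {i | φ_i y > 0}`
has `ψ_σ y > 0`. -/

set_option autoImplicit false

namespace Pool.Agent.CRC

open Set Topology

private theorem dimY1_exists_fun {Y : Type} [MetricSpace Y] (v : Set Y) (hv : IsOpen v) :
    ∃ f : Y → ℝ, Continuous f ∧ (∀ y, 0 ≤ f y) ∧ ∀ y, 0 < f y ↔ y ∈ v := by
  rcases Set.eq_empty_or_nonempty vᶜ with h | h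
  · refine ⟨fun _ => 1, continuous_const, fun _ => zero_le_one, fun y => ?_⟩
    have : v = univ := by
      rw [← compl_compl v, h, compl_empty]
    simp [this]
  · refine ⟨fun y => Metric.infDist y vᶜ, Metric.continuous_infDist_pt _,
      fun y => Metric.infDist_nonneg, fun y => ?_⟩
    have h1 : y ∈ vᶜ ↔ Metric.infDist y vᶜ = 0 := hv.isClosed_compl.mem_iff_infDist_zero h
    constructor
    · intro h2
      by_contra h3
      exact h2.ne' (h1.1 h3)
    · intro h2
      have h3 : Metric.infDist y vᶜ ≠ 0 := fun h4 => (h1.2 h4) h2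
      exact lt_of_le_of_ne Metric.infDist_nonneg (Ne.symm h3)

open Classical in
theorem exists_layers {Y : Type} [MetricSpace Y] [CompactSpace Y] (h : FinDim Y) :
    ∃ a : ℕ, ∀ (p : ℕ) (U : Fin p → Set Y), (∀ i, IsOpen (U i)) → (∀ y, ∃ i, y ∈ U i) →
      ∃ (r : ℕ) (ψ : Fin a → Fin r → Y → ℝ), (∀ b σ, Continuous (ψ b σ)) ∧
        (∀ b σ y, 0 ≤ ψ b σ y) ∧
        (∀ b σ σ' y, 0 < ψ b σ y → 0 < ψ b σ' y → σ = σ') ∧
        (∀ y, ∃ b σ, 0 < ψ b σ y) ∧
        (∀ b σ, ∃ i, ∀ y, 0 < ψ b σ y → y ∈ U i) := by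
  obtain ⟨n, hn⟩ := h
  refine ⟨n + 1, fun p U hU hcov => ?_⟩
  rcases isEmpty_or_nonempty Y with hY | ⟨⟨y0⟩⟩
  · exact ⟨0, fun _ _ _ => 0, fun _ _ => continuous_const, fun _ _ _ => le_rfl,
      fun _ σ => σ.elim0, fun y => (hY.false y).elim, fun _ σ => σ.elim0⟩
  obtain ⟨i0, -⟩ := hcov y0
  obtain ⟨𝒱, hVo, hVc, hVr, hVm⟩ := hn (Finset.univ.image U)
    (by
      intro W hW
      obtain ⟨i, -, rfl⟩ := Finset.mem_image.1 hW
      exact hU i)
    (by
      rw [Set.eq_univ_iff_forall]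
      intro y
      obtain ⟨i, hi⟩ := hcov y
      exact ⟨U i, by simp, hi⟩)
  choose! f hfc hf0 hfp using fun v : Set Y => dimY1_exists_fun v
  -- the functions attached to members
  let φ : (↥𝒱 : Type) → Y → ℝ := fun v => f v.1
  have hφc : ∀ v, Continuous (φ v) := fun v => hfc v.1 (hVo v.1 v.2)
  have hφ0 : ∀ v y, 0 ≤ φ v y := fun v => hf0 v.1 (hVo v.1 v.2)
  have hφp : ∀ v y, 0 < φ v y ↔ y ∈ v.1 := fun v => hfp v.1 (hVo v.1 v.2)
  let Ψ : Finset (↥𝒱 : Type) → Y → ℝ := fun σ y =>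
    (∏ i ∈ σ, φ i y) * ∏ i ∈ σ, ∏ j ∈ σᶜ, max (φ i y - φ j y) 0
  have hΨc : ∀ σ, Continuous (Ψ σ) := by
    intro σ
    apply Continuous.mul
    · exact continuous_finsetProd _ fun i _ => hφc i
    · exact continuous_finsetProd _ fun i _ => continuous_finsetProd _ fun j _ =>
        ((hφc i).sub (hφc j)).max continuous_const
  have hΨ0 : ∀ σ y, 0 ≤ Ψ σ y := by
    intro σ y
    apply mul_nonneg
    · exact Finset.prod_nonneg fun i _ => hφ0 i y
    · exact Finset.prod_nonneg fun i _ => Finset.prod_nonneg fun j _ => le_max_right _ _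
  have hΨpos : ∀ σ y, 0 < Ψ σ y ↔
      (∀ i ∈ σ, 0 < φ i y) ∧ ∀ i ∈ σ, ∀ j, j ∉ σ → φ j y < φ i y := by
    intro σ y
    constructor
    · intro hp
      have hne : Ψ σ y ≠ 0 := hp.ne'
      have h1 : (∏ i ∈ σ, φ i y) ≠ 0 := left_ne_zero_of_mul hne
      have h2 : (∏ i ∈ σ, ∏ j ∈ σᶜ, max (φ i y - φ j y) 0) ≠ 0 := right_ne_zero_of_mul hne
      refine ⟨fun i hi => ?_, fun i hi j hj => ?_⟩
      · exact lt_of_le_of_ne (hφ0 i y) (Ne.symm (Finset.prod_ne_zero_iff.1 h1 i hi))
      · have h3 := Finset.prod_ne_zero_iff.1 (Finset.prod_ne_zero_iff.1 h2 i hi) j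
          (Finset.mem_compl.2 hj)
        by_contra hcon
        apply h3
        exact max_eq_right (by linarith [not_lt.1 hcon])
    · rintro ⟨h1, h2⟩
      apply mul_pos
      · exact Finset.prod_pos h1
      · exact Finset.prod_pos fun i hi => Finset.prod_pos fun j hj =>
          lt_max_of_lt_left (by linarith [h2 i hi j (Finset.mem_compl.1 hj)])
  let e : Fin (Fintype.card (Finset (↥𝒱 : Type))) ≃ Finset (↥𝒱 : Type) :=
    (Fintype.equivFin _).symm
  refine ⟨Fintype.card (Finset (↥𝒱 : Type)), fun b σ y =>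
    if (e σ).card = b.1 + 1 then Ψ (e σ) y else 0, ?_, ?_, ?_, ?_, ?_⟩
  · intro b σ
    by_cases hc : (e σ).card = b.1 + 1
    · simpa only [if_pos hc] using hΨc (e σ)
    · simpa only [if_neg hc] using (continuous_const : Continuous fun _ : Y => (0 : ℝ))
  · intro b σ y
    dsimp only
    split_ifs
    · exact hΨ0 _ _
    · exact le_rfl
  · intro b σ σ' y h1 h2
    dsimp only at h1 h2
    split_ifs at h1 h2 with c1 c2
    · rw [hΨpos] at h1 h2
      apply e.injective
      by_contra hne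
      have hsub : ¬ (e σ) ⊆ (e σ') := fun hs =>
        hne (Finset.eq_of_subset_of_card_le hs (by rw [c1, c2]))
      have hsub' : ¬ (e σ') ⊆ (e σ) := fun hs =>
        hne (Finset.eq_of_subset_of_card_le hs (by rw [c1, c2])).symm
      obtain ⟨i, hi, hi'⟩ := Finset.not_subset.1 hsub
      obtain ⟨j, hj, hj'⟩ := Finset.not_subset.1 hsub'
      exact absurd (h1.2 i hi j hj') (not_lt.2 (h2.2 j hj i hi').le)
    · exact absurd h2 (lt_irrefl _)
    · exact absurd h1 (lt_irrefl _)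
    · exact absurd h1 (lt_irrefl _)
  · intro y
    let σ : Finset (↥𝒱 : Type) := Finset.univ.filter fun i => 0 < φ i y
    have hσne : σ.Nonempty := by
      have hy : y ∈ ⋃₀ (↑𝒱 : Set (Set Y)) := by rw [hVc]; trivial
      obtain ⟨v, hv, hyv⟩ := hy
      exact ⟨⟨v, hv⟩, Finset.mem_filter.2 ⟨Finset.mem_univ _, (hφp ⟨v, hv⟩ y).2 hyv⟩⟩
    have hσcard : σ.card ≤ n + 1 := by
      by_contra hcon
      have h1 := hVm (σ.map (Function.Embedding.subtype _))
        (by
          intro v hv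
          obtain ⟨w, -, rfl⟩ := Finset.mem_map.1 hv
          exact w.2)
        (by rw [Finset.card_map]; omega)
      have h2 : y ∈ ⋂₀ (↑(σ.map (Function.Embedding.subtype _)) : Set (Set Y)) := by
        intro v hv
        obtain ⟨w, hw, rfl⟩ := Finset.mem_map.1 (Finset.mem_coe.1 hv)
        exact (hφp w y).1 (Finset.mem_filter.1 hw).2
      rw [h1] at h2
      exact h2
    have hpos := Finset.card_pos.2 hσne
    refine ⟨⟨σ.card - 1, by omega⟩, e.symm σ, ?_⟩
    dsimp only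
    rw [Equiv.apply_symm_apply, if_pos (by omega), hΨpos]
    refine ⟨fun i hi => (Finset.mem_filter.1 hi).2, fun i hi j hj => ?_⟩
    have h1 : ¬ 0 < φ j y := fun h2 => hj (Finset.mem_filter.2 ⟨Finset.mem_univ _, h2⟩)
    exact lt_of_le_of_lt (not_lt.1 h1) (Finset.mem_filter.1 hi).2
  · intro b σ
    by_cases hc : (e σ).card = b.1 + 1
    · have hne : (e σ).Nonempty := Finset.card_pos.1 (by omega)
      obtain ⟨v, hv⟩ := hne
      obtain ⟨W, hW, hvW⟩ := hVr v.1 v.2
      obtain ⟨i, -, rfl⟩ := Finset.mem_image.1 hW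
      refine ⟨i, fun y hy => ?_⟩
      dsimp only at hy
      rw [if_pos hc, hΨpos] at hy
      exact hvW ((hφp v y).1 (hy.1 v hv))
    · refine ⟨i0, fun y hy => ?_⟩
      dsimp only at hy
      rw [if_neg hc] at hy
      exact absurd hy (lt_irrefl _)

end Pool.Agent.CRC
end

section

/-! TASK Y2a: local sheets over the orbit space. -/

set_option autoImplicit false

namespace Pool.Agent.CRC

open Set Topology

private theorem sheet_exists_pos_le (s : Finset ℕ) (f : ℕ → ℝ) (h : ∀ i ∈ s, 0 < f i) :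
    ∃ ε : ℝ, 0 < ε ∧ ∀ i ∈ s, ε ≤ f i := by
  induction s using Finset.induction_on with
  | empty => exact ⟨1, one_pos, by simp⟩
  | insert a s ha ih =>
    obtain ⟨ε, hε, h2⟩ := ih fun i hi => h i (Finset.mem_insert_of_mem hi)
    refine ⟨min ε (f a), lt_min hε (h a (Finset.mem_insert_self _ _)), fun i hi => ?_⟩
    rcases Finset.mem_insert.1 hi with rfl | hi
    · exact min_le_right _ _
    · exact (min_le_left _ _).trans (h2 i hi)

private theorem sheet_iso_iter (T : Tower) (j i : ℕ) (x y : T.S j) :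
    dist ((T.τ j)^[i] x) ((T.τ j)^[i] y) = dist x y := by
  induction i with
  | zero => rfl
  | succ i ih => rw [Function.iterate_succ_apply', Function.iterate_succ_apply', (T.iso j).dist_eq, ih]

/-- local sheets: every point of the orbit space has a neighbourhood `U` over which there is a
continuous equivariant function of modulus one. (`U = pr '' (proj j ⁻¹' ball z r)`, `r` at most a
quarter of the minimal displacement of `τ j`; `s x = ζ^l` if `proj j x ∈ τ^l (ball z r)`.) -/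
theorem Tower.exists_sheet (T : Tower) (j : ℕ) (y : Orb T.isKAct) :
    ∃ (U : Set (Orb T.isKAct)) (s : T.Lim → ℂ), IsOpen U ∧ y ∈ U ∧
      ContinuousOn s (pr T.isKAct ⁻¹' U) ∧ (∀ x, pr T.isKAct x ∈ U → ‖s x‖ = 1) ∧
      ∀ x, pr T.isKAct x ∈ U → s (T.act 1 x) = zt (2 ^ T.k j) * s x := by
  obtain ⟨x0, rfl⟩ := pr_surjective T.isKAct y
  set n : ℕ := 2 ^ T.k j with hn
  set z : T.S j := T.proj j x0 with hz
  have hn0 : 0 < n := by positivity
  obtain ⟨r4, hr4, hr4'⟩ := sheet_exists_pos_le (Finset.Ioo 0 n)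
    (fun i => dist z ((T.τ j)^[i] z)) (fun i hi => by
      rw [Finset.mem_Ioo] at hi
      exact dist_pos.2 (T.free j z i hi.1 hi.2).symm)
  set r : ℝ := r4 / 4 with hr
  have hr0 : 0 < r := by positivity
  -- distances between the centres
  have hcen : ∀ l l', l < l' → l' < n → 4 * r ≤ dist ((T.τ j)^[l] z) ((T.τ j)^[l'] z) := by
    intro l l' hl hl'
    have h1 : (T.τ j)^[l'] z = (T.τ j)^[l] ((T.τ j)^[l' - l] z) := by
      rw [← Function.iterate_add_apply]; congr 2; omega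
    rw [h1, sheet_iso_iter]
    have := hr4' (l' - l) (Finset.mem_Ioo.2 ⟨by omega, by omega⟩)
    linarith
  have hcen' : ∀ l l', l ≠ l' → l < n → l' < n →
      4 * r ≤ dist ((T.τ j)^[l] z) ((T.τ j)^[l'] z) := by
    intro l l' hne hl hl'
    rcases lt_or_gt_of_ne hne with h | h
    · exact hcen l l' h hl'
    · rw [dist_comm]; exact hcen l' l h hl
  classical
  set s : T.Lim → ℂ := fun x => ∑ l ∈ Finset.range n,
    if dist (T.proj j x) ((T.τ j)^[l] z) < r then zt n ^ l else 0 with hs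
  have key : ∀ (x : T.Lim) (i : ℕ), dist (T.proj j x) ((T.τ j)^[i] z) < r → s x = zt n ^ i := by
    intro x i hi
    have h1 : (T.τ j)^[i % n] z = (T.τ j)^[i] z := T.iter_mod j i z
    have h2 : zt n ^ i = zt n ^ (i % n) := by
      conv_lhs => rw [← Nat.mod_add_div i n]
      rw [pow_add, pow_mul, zt_pow_self, one_pow, mul_one]
    rw [← h1] at hi
    rw [h2, hs]
    show ∑ l ∈ Finset.range n, _ = _
    rw [Finset.sum_eq_single_of_mem (i % n) (Finset.mem_range.2 (Nat.mod_lt _ hn0))]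
    · rw [if_pos hi]
    · intro l hl hne
      rw [if_neg]
      intro h3
      have h4 := hcen' (i % n) l hne.symm (Nat.mod_lt _ hn0) (Finset.mem_range.1 hl)
      have h5 := dist_triangle_left ((T.τ j)^[i % n] z) ((T.τ j)^[l] z) (T.proj j x)
      linarith
  have hex : ∀ x, pr T.isKAct x ∈ pr T.isKAct '' (T.proj j ⁻¹' Metric.ball z r) →
      ∃ i, dist (T.proj j x) ((T.τ j)^[i] z) < r := by
    rintro x ⟨x', hx', hxx⟩
    obtain ⟨k, hk⟩ := (pr_eq_iff T.isKAct).1 hxx.symm
    refine ⟨T.num j k, ?_⟩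
    rw [← hk, T.proj_act, sheet_iso_iter]
    exact hx'
  refine ⟨pr T.isKAct '' (T.proj j ⁻¹' Metric.ball z r), s, ?_, ?_, ?_, ?_, ?_⟩
  · exact isOpenMap_pr T.isKAct _ (Metric.isOpen_ball.preimage (T.continuous_proj j))
  · exact ⟨x0, Metric.mem_ball_self hr0, rfl⟩
  · intro x hx
    obtain ⟨i, hi⟩ := hex x hx
    apply ContinuousAt.continuousWithinAt
    have hopen : IsOpen {x' : T.Lim | dist (T.proj j x') ((T.τ j)^[i] z) < r} :=
      isOpen_lt ((T.continuous_proj j).dist continuous_const) continuous_const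
    have hev : s =ᶠ[𝓝 x] fun _ => zt n ^ i := by
      filter_upwards [hopen.mem_nhds hi] with x' hx'
      exact key x' i hx'
    exact continuousAt_const.congr hev.symm
  · intro x hx
    obtain ⟨i, hi⟩ := hex x hx
    rw [key x i hi, norm_pow, norm_zt, one_pow]
  · intro x hx
    obtain ⟨i, hi⟩ := hex x hx
    rw [key x i hi, key (T.act 1 x) (i + 1), pow_succ, mul_comm]
    rw [T.proj_act, T.num_one, Function.iterate_succ_apply', (T.iso j).dist_eq]
    exact hi

end Pool.Agent.CRC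
end

section

/-! TASK Y2: equivariant functions on the limit (finite subcover of the sheets of `exists_sheet`,
`exists_layers`, and `Φ b x = ∑ σ, ψ b σ (pr x) * s_σ x`, where `s_σ` is a sheet over a set containing
`{ψ b σ > 0}`; continuity because `‖s_σ‖ = 1` where `ψ b σ > 0`; no cancellation because for fixed `b`
and `x` at most one `ψ b σ (pr x)` is nonzero). -/

set_option autoImplicit false

namespace Pool.Agent.CRC

open Set Topology

/-- a continuous function times a bounded function that is continuous where the first is positive -/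
private theorem dimy2_continuous {X Y : Type} [TopologicalSpace X] [TopologicalSpace Y] (q : X → Y)
    (hq : Continuous q) (U : Set Y) (hU : IsOpen U) (ψ : Y → ℝ) (hψ : Continuous ψ)
    (h0 : ∀ y, 0 ≤ ψ y) (hsup : ∀ y, 0 < ψ y → y ∈ U) (s : X → ℂ)
    (hs : ContinuousOn s (q ⁻¹' U)) (hn : ∀ x, q x ∈ U → ‖s x‖ = 1) :
    Continuous fun x => (ψ (q x) : ℂ) * s x := by
  rw [continuous_iff_continuousAt]
  intro x
  by_cases hx : q x ∈ U
  · have h1 : ContinuousAt s x := hs.continuousAt ((hU.preimage hq).mem_nhds hx)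
    have h2 : Continuous fun x => (ψ (q x) : ℂ) := Complex.continuous_ofReal.comp (hψ.comp hq)
    exact h2.continuousAt.mul h1
  · have hz : ψ (q x) = 0 := by
      by_contra h
      exact hx (hsup _ (lt_of_le_of_ne (h0 _) (Ne.symm h)))
    have hb : ∀ x', ‖(ψ (q x') : ℂ) * s x'‖ ≤ ψ (q x') := by
      intro x'
      rcases (h0 (q x')).eq_or_lt with h | h
      · rw [← h]; simp
      · rw [norm_mul, hn x' (hsup _ h), mul_one, Complex.norm_real, Real.norm_of_nonneg h.le]
    have h3 : Filter.Tendsto (fun x' => (ψ (q x') : ℂ) * s x') (𝓝 x) (𝓝 0) := by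
      have h4 : Filter.Tendsto (fun x' => ψ (q x')) (𝓝 x) (𝓝 0) := by
        have h5 := (hψ.comp hq).tendsto x
        have h6 : (ψ ∘ q) x = 0 := hz
        rw [h6] at h5
        exact h5
      exact squeeze_zero_norm hb h4
    rw [ContinuousAt]
    simpa [hz] using h3

/-- `Φ b x = ∑ σ, ψ b σ (pr x) * s_σ x` -/
theorem Tower.exists_Phi (T : Tower) (h : FinDim (Orb T.isKAct)) :
    ∃ a : ℕ, ∀ j, ∃ Φ : Fin a → T.Lim → ℂ, (∀ b, Continuous (Φ b)) ∧
      (∀ b x, Φ b (T.act 1 x) = zt (2 ^ T.k j) * Φ b x) ∧ ∀ x, ∃ b, Φ b x ≠ 0 := by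
  have : CompactSpace (Orb T.isKAct) := compactSpace_orb T.isKAct
  obtain ⟨a, ha⟩ := exists_layers h
  refine ⟨a, fun j => ?_⟩
  choose U s hU hyU hcs hns hes using T.exists_sheet j
  obtain ⟨t, ht⟩ := isCompact_univ.elim_finite_subcover (fun y => U y) (fun y => hU y)
    (fun y _ => mem_iUnion.2 ⟨y, hyU y⟩)
  obtain ⟨r, ψ, hψc, hψ0, hψd, hψe, hψU⟩ := ha t.card (fun i => U (t.equivFin.symm i).1)
    (fun i => hU _) (fun y => by
      have := ht (mem_univ y)
      simp only [mem_iUnion, exists_prop] at this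
      obtain ⟨y', hy', hyy⟩ := this
      exact ⟨t.equivFin ⟨y', hy'⟩, by simpa using hyy⟩)
  choose i hi using hψU
  set c : Fin a → Fin r → Orb T.isKAct := fun b σ => (t.equivFin.symm (i b σ)).1 with hc
  refine ⟨fun b x => ∑ σ, (ψ b σ (pr T.isKAct x) : ℂ) * s (c b σ) x, ?_, ?_, ?_⟩
  · intro b
    refine continuous_finsetSum _ fun σ _ => ?_
    exact dimy2_continuous (pr T.isKAct) (continuous_pr T.isKAct) (U (c b σ)) (hU _)
      (ψ b σ) (hψc b σ) (hψ0 b σ) (hi b σ) (s (c b σ)) (hcs _) (hns _)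
  · intro b x
    show ∑ σ, _ = _ * ∑ σ, _
    rw [Finset.mul_sum]
    refine Finset.sum_congr rfl fun σ _ => ?_
    rw [pr_act]
    rcases (hψ0 b σ (pr T.isKAct x)).eq_or_lt with h1 | h1
    · rw [← h1]; simp
    · rw [hes (c b σ) x (hi b σ _ h1)]
      ring
  · intro x
    obtain ⟨b, σ, hb⟩ := hψe (pr T.isKAct x)
    refine ⟨b, ?_⟩
    show ∑ σ, (ψ b σ (pr T.isKAct x) : ℂ) * s (c b σ) x ≠ 0
    rw [Finset.sum_eq_single_of_mem σ (Finset.mem_univ σ)]
    · apply mul_ne_zero
      · exact_mod_cast hb.ne'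
      · intro h0
        have := hns (c b σ) x (hi b σ _ hb)
        rw [h0, norm_zero] at this
        exact zero_ne_one this
    · intro σ' _ hne
      have : ψ b σ' (pr T.isKAct x) = 0 := by
        by_contra h1
        exact hne (hψd b σ' σ _ (lt_of_le_of_ne (hψ0 _ _ _) (Ne.symm h1)) hb)
      rw [this]; simp

end Pool.Agent.CRC
end

section

/-! TASK Y3: approximation by equivariant functions at a finite stage.

For every continuous `f : T.Lim → ℂ` and `ε > 0` there are `j1 ≥ j0` and continuous `g : T.S j1 → ℂ`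
with `‖f x - g (proj j1 x)‖ < ε` (Stone–Weierstrass, or a partition of unity on `T.S j1` and uniform
continuity; if it holds for `j1` it holds for all larger stages). Average:
`ψ z = (1/n) ∑_{i < n} ζ^{-i} g (τ^i z)`, `n = 2 ^ k j1`, `ζ = zt (2 ^ k j0)` (`ζ^n = 1`). -/

set_option autoImplicit false

namespace Pool.Agent.CRC

open Set Topology

/-- infimal convolution -/
private theorem dimy3_real {X Y : Type} [Nonempty X] [PseudoMetricSpace Y] (p : X → Y) (f : X → ℝ)
    {M ε δ : ℝ} (hδ : 0 < δ) (hM : ∀ x, |f x| ≤ M)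
    (h : ∀ x y, dist (p x) (p y) < δ → |f x - f y| < ε) :
    ∃ g : Y → ℝ, Continuous g ∧ ∀ x, |f x - g (p x)| ≤ ε := by
  obtain ⟨x₀⟩ := ‹Nonempty X›
  have hM0 : 0 ≤ M := (abs_nonneg _).trans (hM x₀)
  set L : ℝ := 2 * M / δ with hL
  have hL0 : 0 ≤ L := by positivity
  have hε : 0 < ε := by
    have := h x₀ x₀ (by rw [dist_self]; exact hδ)
    rwa [sub_self, abs_zero] at this
  have hbdd : ∀ y : Y, BddBelow (Set.range fun x => f x + L * dist y (p x)) := by
    intro y
    refine ⟨-M, ?_⟩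
    rintro _ ⟨x, rfl⟩
    have h1 := (abs_le.1 (hM x)).1
    have h2 : 0 ≤ L * dist y (p x) := mul_nonneg hL0 dist_nonneg
    simp only
    linarith
  have : Nonempty X := ⟨x₀⟩
  refine ⟨fun y => ⨅ x, (f x + L * dist y (p x)), ?_, ?_⟩
  · have hlip : LipschitzWith L.toNNReal (fun y => ⨅ x, (f x + L * dist y (p x))) := by
      apply LipschitzWith.of_le_add_mul
      intro y y'
      rw [Real.coe_toNNReal _ hL0, ← sub_le_iff_le_add]
      apply le_ciInf
      intro x
      rw [sub_le_iff_le_add]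
      refine (ciInf_le (hbdd y) x).trans ?_
      have h1 := dist_triangle y y' (p x)
      nlinarith
    exact hlip.continuous
  · intro x
    rw [abs_le]
    constructor
    · have h1 := ciInf_le (hbdd (p x)) x
      rw [dist_self, mul_zero, add_zero] at h1
      linarith
    · have h1 : f x - ε ≤ ⨅ x', (f x' + L * dist (p x) (p x')) := by
        apply le_ciInf
        intro x'
        rcases lt_or_ge (dist (p x) (p x')) δ with h2 | h2
        · have h3 := (abs_lt.1 (h x x' h2)).2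
          have h4 : 0 ≤ L * dist (p x) (p x') := mul_nonneg hL0 dist_nonneg
          linarith
        · have h3 := (abs_le.1 (hM x)).2
          have h4 := (abs_le.1 (hM x')).1
          have h5 : 2 * M ≤ L * dist (p x) (p x') := by
            calc 2 * M = L * δ := by rw [hL]; field_simp
              _ ≤ L * dist (p x) (p x') := mul_le_mul_of_nonneg_left h2 hL0
          linarith
      linarith

theorem Tower.exists_approx (T : Tower) (f : T.Lim → ℂ) (hf : Continuous f) (ε : ℝ)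
    (hε : 0 < ε) : ∃ j1, ∀ j, j1 ≤ j → ∃ g : T.S j → ℂ, Continuous g ∧
      ∀ x, ‖f x - g (T.proj j x)‖ < ε := by
  have hu := CompactSpace.uniformContinuous_of_continuous hf
  obtain ⟨η, hη, hη2⟩ := Metric.uniformContinuous_iff.1 hu (ε / 4) (by positivity)
  obtain ⟨j1, hj1⟩ := T.dist_lt_of_proj_dist_lt η hη
  refine ⟨j1, fun j hj => ?_⟩
  obtain ⟨δ, hδ, hδ2⟩ := hj1 j hj
  obtain ⟨M, hM⟩ := (isCompact_range hf).isBounded.exists_norm_le
  have hM' : ∀ x, ‖f x‖ ≤ M := fun x => hM _ ⟨x, rfl⟩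
  have hclose : ∀ x y, dist (T.proj j x) (T.proj j y) < δ → ‖f x - f y‖ < ε / 4 := by
    intro x y hxy
    rw [← dist_eq_norm]
    exact hη2 (hδ2 x y hxy)
  obtain ⟨g1, hg1, hg1'⟩ := dimy3_real (T.proj j) (fun x => (f x).re) hδ
    (fun x => (Complex.abs_re_le_norm _).trans (hM' x)) (ε := ε / 4) (fun x y hxy => by
      have h1 := (Complex.abs_re_le_norm (f x - f y)).trans_lt (hclose x y hxy)
      rwa [Complex.sub_re] at h1)
  obtain ⟨g2, hg2, hg2'⟩ := dimy3_real (T.proj j) (fun x => (f x).im) hδ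
    (fun x => (Complex.abs_im_le_norm _).trans (hM' x)) (ε := ε / 4) (fun x y hxy => by
      have h1 := (Complex.abs_im_le_norm (f x - f y)).trans_lt (hclose x y hxy)
      rwa [Complex.sub_im] at h1)
  refine ⟨fun z => (g1 z : ℂ) + (g2 z : ℂ) * Complex.I, by fun_prop, fun x => ?_⟩
  have h1 := Complex.norm_le_abs_re_add_abs_im
    (f x - ((g1 (T.proj j x) : ℂ) + (g2 (T.proj j x) : ℂ) * Complex.I))
  simp only [Complex.sub_re, Complex.add_re, Complex.ofReal_re, Complex.mul_re, Complex.I_re,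
    mul_zero, Complex.ofReal_im, Complex.I_im, mul_one, sub_self, add_zero, Complex.sub_im,
    Complex.add_im, Complex.mul_im, zero_add] at h1
  have h2 := hg1' x
  have h3 := hg2' x
  linarith

private theorem dimy3_proj_act (T : Tower) (j i : ℕ) (x : T.Lim) :
    T.proj j ((T.act 1)^[i] x) = (T.τ j)^[i] (T.proj j x) := by
  induction i generalizing x with
  | zero => rfl
  | succ i ih => rw [Function.iterate_succ_apply, ih, Function.iterate_succ_apply, T.proj_act,
      T.num_one]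

theorem Tower.exists_stage_Phi (T : Tower) (hs : ∀ j, Function.Surjective (T.p j)) (j0 a : ℕ)
    (Φ : Fin a → T.Lim → ℂ) (hΦ : ∀ b, Continuous (Φ b))
    (he : ∀ b x, Φ b (T.act 1 x) = zt (2 ^ T.k j0) * Φ b x) (h0 : ∀ x, ∃ b, Φ b x ≠ 0) :
    ∃ (j : ℕ) (Ψ : Fin a → T.S j → ℂ), j0 ≤ j ∧ (∀ b, Continuous (Ψ b)) ∧
      (∀ b z, Ψ b (T.τ j z) = zt (2 ^ T.k j0) * Ψ b z) ∧ ∀ z, ∃ b, Ψ b z ≠ 0 := by
  classical
  -- a lower bound
  obtain ⟨δ, hδ, hδ2⟩ : ∃ δ : ℝ, 0 < δ ∧ ∀ x, ∃ b, δ ≤ ‖Φ b x‖ := by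
    have hc : Continuous (fun x => ∑ b, ‖Φ b x‖) :=
      continuous_finsetSum _ fun b _ => (hΦ b).norm
    obtain ⟨x₀, -, hx₀⟩ := isCompact_univ.exists_isMinOn (univ_nonempty (α := T.Lim)) hc.continuousOn
    have hpos : 0 < ∑ b, ‖Φ b x₀‖ := by
      obtain ⟨b, hb⟩ := h0 x₀
      exact Finset.sum_pos' (fun b _ => norm_nonneg _) ⟨b, Finset.mem_univ _, norm_pos_iff.2 hb⟩
    have ha : 0 < (a : ℝ) + 1 := by positivity
    refine ⟨(∑ b, ‖Φ b x₀‖) / (a + 1), by positivity, fun x => ?_⟩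
    by_contra hcon
    push Not at hcon
    have h1 : ∑ b, ‖Φ b x‖ ≤ ∑ _b : Fin a, (∑ b, ‖Φ b x₀‖) / (a + 1) :=
      Finset.sum_le_sum fun b _ => (hcon b).le
    rw [Finset.sum_const, Finset.card_univ, Fintype.card_fin, nsmul_eq_mul] at h1
    have h2 : ∑ b, ‖Φ b x₀‖ ≤ ∑ b, ‖Φ b x‖ := hx₀ (mem_univ x)
    have h3 : (a : ℝ) * ((∑ b, ‖Φ b x₀‖) / (a + 1)) < ∑ b, ‖Φ b x₀‖ := by
      rw [mul_div_assoc', div_lt_iff₀ ha]
      nlinarith
    linarith
  choose j1 hj1 using fun b => T.exists_approx (Φ b) (hΦ b) δ hδ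
  set j : ℕ := max j0 (Finset.univ.sup j1) with hj
  have hj0 : j0 ≤ j := le_max_left _ _
  have hjb : ∀ b, j1 b ≤ j := fun b => (Finset.le_sup (Finset.mem_univ b)).trans (le_max_right _ _)
  choose g hg hgx using fun b => hj1 b j (hjb b)
  set ζ := zt (2 ^ T.k j0) with hζ
  set n : ℕ := 2 ^ T.k j with hn
  have hn0 : (n : ℂ) ≠ 0 := by
    have : n ≠ 0 := by positivity
    exact_mod_cast this
  have hζ0 : ζ ≠ 0 := zt_ne_zero _
  have hζ1 : ‖ζ‖ = 1 := norm_zt _
  have hζn : ζ ^ n = 1 := by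
    have h1 : T.k j0 ≤ T.k j := T.kmono.monotone hj0
    obtain ⟨c, hc⟩ : 2 ^ T.k j0 ∣ n := pow_dvd_pow 2 h1
    rw [hc, pow_mul, hζ, zt_pow_self, one_pow]
  have heq : ∀ b (i : ℕ) x, Φ b ((T.act 1)^[i] x) = ζ ^ i * Φ b x := by
    intro b i
    induction i with
    | zero => intro x; simp
    | succ i ih => intro x; rw [Function.iterate_succ_apply, ih, he, pow_succ]; ring
  refine ⟨j, fun b z => (n : ℂ)⁻¹ * ∑ i ∈ Finset.range n, (ζ ^ i)⁻¹ * g b ((T.τ j)^[i] z), hj0,
    ?_, ?_, ?_⟩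
  · intro b
    refine continuous_const.mul (continuous_finsetSum _ fun i _ => continuous_const.mul ?_)
    exact (hg b).comp ((T.iso j).continuous.iterate i)
  · intro b z
    simp only
    have h1 : ∑ i ∈ Finset.range n, (ζ ^ i)⁻¹ * g b ((T.τ j)^[i] (T.τ j z)) =
        ζ * ∑ i ∈ Finset.range n, (ζ ^ (i + 1))⁻¹ * g b ((T.τ j)^[i + 1] z) := by
      rw [Finset.mul_sum]
      refine Finset.sum_congr rfl fun i _ => ?_
      rw [Function.iterate_succ_apply, pow_succ]
      field_simp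
    have h2 : ∑ i ∈ Finset.range n, (ζ ^ (i + 1))⁻¹ * g b ((T.τ j)^[i + 1] z) =
        ∑ i ∈ Finset.range n, (ζ ^ i)⁻¹ * g b ((T.τ j)^[i] z) := by
      have h3 := Finset.sum_range_succ (fun i => (ζ ^ i)⁻¹ * g b ((T.τ j)^[i] z)) n
      rw [Finset.sum_range_succ'] at h3
      have h4 : (ζ ^ n)⁻¹ * g b ((T.τ j)^[n] z) = (ζ ^ 0)⁻¹ * g b ((T.τ j)^[0] z) := by
        rw [hζn, pow_zero, T.ord]
        rfl
      rw [h4] at h3
      exact add_right_cancel h3
    rw [h1, h2]
    ring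
  · intro z
    obtain ⟨x, rfl⟩ := T.proj_surjective hs j z
    obtain ⟨b, hb⟩ := hδ2 x
    refine ⟨b, fun hzero => ?_⟩
    simp only at hzero
    have h1 : Φ b x = (n : ℂ)⁻¹ * ∑ i ∈ Finset.range n,
        ((ζ ^ i)⁻¹ * (Φ b ((T.act 1)^[i] x) - g b (T.proj j ((T.act 1)^[i] x)))) := by
      have h2 : ∑ i ∈ Finset.range n,
          ((ζ ^ i)⁻¹ * (Φ b ((T.act 1)^[i] x) - g b (T.proj j ((T.act 1)^[i] x)))) =
          (n : ℂ) * Φ b x - ∑ i ∈ Finset.range n, (ζ ^ i)⁻¹ * g b ((T.τ j)^[i] (T.proj j x)) := by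
        have h3 : ∀ i ∈ Finset.range n,
            (ζ ^ i)⁻¹ * (Φ b ((T.act 1)^[i] x) - g b (T.proj j ((T.act 1)^[i] x))) =
            Φ b x - (ζ ^ i)⁻¹ * g b ((T.τ j)^[i] (T.proj j x)) := by
          intro i _
          rw [heq, dimy3_proj_act, mul_sub, ← mul_assoc, inv_mul_cancel₀ (pow_ne_zero i hζ0),
            one_mul]
        rw [Finset.sum_congr rfl h3, Finset.sum_sub_distrib, Finset.sum_const, Finset.card_range,
          nsmul_eq_mul]
      rw [h2, mul_sub, hzero, sub_zero, ← mul_assoc, inv_mul_cancel₀ hn0, one_mul]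
    have h4 : ‖Φ b x‖ < δ := by
      rw [h1, norm_mul, norm_inv, Complex.norm_natCast]
      have hnpos : 0 < n := by positivity
      have hnpos' : (0 : ℝ) < n := by exact_mod_cast hnpos
      have h5 : ‖∑ i ∈ Finset.range n,
          ((ζ ^ i)⁻¹ * (Φ b ((T.act 1)^[i] x) - g b (T.proj j ((T.act 1)^[i] x))))‖ <
          ∑ _i ∈ Finset.range n, δ := by
        refine (norm_sum_le _ _).trans_lt ?_
        apply Finset.sum_lt_sum_of_nonempty (by simpa using hnpos.ne')
        intro i _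
        rw [norm_mul, norm_inv, norm_pow, hζ1, one_pow, inv_one, one_mul]
        exact hgx b _
      rw [Finset.sum_const, Finset.card_range, nsmul_eq_mul] at h5
      rw [inv_mul_lt_iff₀ hnpos']
      exact h5
    linarith

end Pool.Agent.CRC
end
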