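import Mathlib
import Pool.Agent.Lib.MP_13800a_gt.S3
import Pool.Agent.Lib.MP_13800a_gt.TowerLim

section

/-! TASK A3a: covers by preimages of boxes, of multiplicity `≤ 2^d`.

The boxes are `∏ (s/2 (m_i - 1), s/2 (m_i + 1))`, `m ∈ ℤ^d`, `|m_i| ≤ B` (the image is bounded);
a real number `t` lies in `(s/2 (m - 1), s/2 (m + 1))` for at least one and at most two integers. -/

set_option autoImplicit false

namespace Pool.Agent.CRC

open Set Topology

private theorem box_index_mem {s t : ℝ} (hs : 0 < s) {k : ℤ}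
    (h1 : s / 2 * ((k : ℝ) - 1) < t) (h2 : t < s / 2 * ((k : ℝ) + 1)) :
    k = ⌊2 * t / s⌋ ∨ k = ⌊2 * t / s⌋ + 1 := by
  have h3 : (k : ℝ) - 1 < 2 * t / s := by
    rw [lt_div_iff₀ hs]; nlinarith
  have h4 : 2 * t / s < (k : ℝ) + 1 := by
    rw [div_lt_iff₀ hs]; nlinarith
  have h5 := Int.floor_le (2 * t / s)
  have h6 := Int.lt_floor_add_one (2 * t / s)
  have h7 : k - 1 < ⌊2 * t / s⌋ + 1 := by
    have : ((k - 1 : ℤ) : ℝ) < ((⌊2 * t / s⌋ + 1 : ℤ) : ℝ) := by push_cast; linarith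
    exact_mod_cast this
  have h8 : ⌊2 * t / s⌋ < k + 1 := by
    have : ((⌊2 * t / s⌋ : ℤ) : ℝ) < ((k + 1 : ℤ) : ℝ) := by push_cast; linarith
    exact_mod_cast this
  omega

private theorem box_index_exists {s t : ℝ} (hs : 0 < s) :
    s / 2 * (((⌊2 * t / s⌋ : ℤ) : ℝ) - 1) < t ∧ t < s / 2 * (((⌊2 * t / s⌋ : ℤ) : ℝ) + 1) := by
  have h5 := Int.floor_le (2 * t / s)
  have h6 := Int.lt_floor_add_one (2 * t / s)
  rw [le_div_iff₀ hs] at h5
  rw [div_lt_iff₀ hs] at h6
  constructor <;> nlinarith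

theorem exists_box_cover {X : Type} [TopologicalSpace X] [CompactSpace X] (d : ℕ)
    (Φ : X → Fin d → ℝ) (hΦ : Continuous Φ) (s : ℝ) (hs : 0 < s) :
    ∃ (m : ℕ) (W : Fin m → Set X), (∀ i, IsOpen (W i)) ∧
      (∀ i, ∀ x ∈ W i, ∀ y ∈ W i, ∀ c, |Φ x c - Φ y c| < s) ∧
      (∀ i, ∀ x y, Φ x = Φ y → x ∈ W i → y ∈ W i) ∧ (∀ x, ∃ i, x ∈ W i) ∧
      ∀ x, Set.ncard {i | x ∈ W i} ≤ 2 ^ d := by
  classical
  -- the indices
  have hb : ∃ N : ℕ, ∀ x c, ⌊2 * Φ x c / s⌋ ∈ Finset.Icc (-(N : ℤ)) N := by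
    have h1 : IsCompact (Set.range Φ) := isCompact_range hΦ
    obtain ⟨R, hR⟩ := h1.isBounded.exists_norm_le
    obtain ⟨N, hN⟩ := exists_nat_ge (2 * R / s + 1)
    refine ⟨N, fun x c => ?_⟩
    have h2 : |Φ x c| ≤ R := by
      have := hR (Φ x) ⟨x, rfl⟩
      exact (norm_le_pi_norm (Φ x) c).trans this
    rw [abs_le] at h2
    have h3 : 2 * Φ x c / s ≤ 2 * R / s := by gcongr; exact h2.2
    have h4 : -(2 * R / s) ≤ 2 * Φ x c / s := by
      rw [← neg_div, ← mul_neg]; gcongr; exact h2.1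
    rw [Finset.mem_Icc]
    constructor
    · rw [Int.le_floor]; push_cast; linarith
    · rw [← Int.lt_add_one_iff, Int.floor_lt]; push_cast; linarith
  obtain ⟨N, hN⟩ := hb
  let J : Type := Fin d → Finset.Icc (-(N : ℤ)) N
  let e : Fin (Fintype.card J) ≃ J := (Fintype.equivFin J).symm
  let W : Fin (Fintype.card J) → Set X := fun i =>
    {x | ∀ c, s / 2 * (((e i c : ℤ) : ℝ) - 1) < Φ x c ∧ Φ x c < s / 2 * (((e i c : ℤ) : ℝ) + 1)}
  refine ⟨Fintype.card J, W, ?_, ?_, ?_, ?_, ?_⟩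
  · intro i
    have : W i = ⋂ c, {x | s / 2 * (((e i c : ℤ) : ℝ) - 1) < Φ x c ∧
        Φ x c < s / 2 * (((e i c : ℤ) : ℝ) + 1)} := by
      ext x; simp [W]
    rw [this]
    refine isOpen_iInter_of_finite fun c => ?_
    have hc : Continuous fun x => Φ x c := (continuous_apply c).comp hΦ
    exact (isOpen_lt continuous_const hc).inter (isOpen_lt hc continuous_const)
  · intro i x hx y hy c
    have h1 := hx c
    have h2 := hy c
    rw [abs_lt]
    constructor <;> nlinarith [h1.1, h1.2, h2.1, h2.2]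
  · intro i x y hxy hx c
    rw [← hxy]; exact hx c
  · intro x
    refine ⟨e.symm fun c => ⟨⌊2 * Φ x c / s⌋, hN x c⟩, fun c => ?_⟩
    simp only [Equiv.apply_symm_apply]
    exact box_index_exists hs
  · intro x
    let T : Finset (Fin d → ℤ) :=
      Fintype.piFinset fun c => ({⌊2 * Φ x c / s⌋, ⌊2 * Φ x c / s⌋ + 1} : Finset ℤ)
    have h1 : Set.ncard {i | x ∈ W i} ≤ Set.ncard (T : Set (Fin d → ℤ)) := by
      refine Set.ncard_le_ncard_of_injOn (fun i c => ((e i c : ℤ))) ?_ ?_ (Finset.finite_toSet T)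
      · intro i hi
        rw [Finset.mem_coe, Fintype.mem_piFinset]
        intro c
        have := box_index_mem hs (hi c).1 (hi c).2
        simpa using this
      · intro i _ j _ hij
        apply e.injective
        funext c
        exact Subtype.ext (congrFun hij c)
    refine h1.trans ?_
    rw [Set.ncard_coe_finset, Fintype.card_piFinset]
    calc ∏ c : Fin d, ({⌊2 * Φ x c / s⌋, ⌊2 * Φ x c / s⌋ + 1} : Finset ℤ).card
        ≤ ∏ _c : Fin d, 2 := Finset.prod_le_prod (fun _ _ => Nat.zero_le _) fun c _ => Finset.card_le_two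
      _ = 2 ^ d := by simp

end Pool.Agent.CRC
end

section

/-! TASK A3b: an invariant map `S3 → ℝ⁶` separating the orbits of the rotation by `ζ_n`. -/

set_option autoImplicit false

namespace Pool.Agent.CRC

open Set Topology

/-- the coordinates of `(z1 conj z2, z1^n, z2^n)` -/
noncomputable def PhiS (n : ℕ) (z : S3) : Fin 6 → ℝ :=
  ![(z.1.1 * (starRingEnd ℂ) z.1.2).re, (z.1.1 * (starRingEnd ℂ) z.1.2).im,
    (z.1.1 ^ n).re, (z.1.1 ^ n).im, (z.1.2 ^ n).re, (z.1.2 ^ n).im]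

theorem continuous_PhiS (n : ℕ) : Continuous (PhiS n) := by
  have h1 : Continuous fun z : S3 => z.1.1 := continuous_fst.comp continuous_subtype_val
  have h2 : Continuous fun z : S3 => z.1.2 := continuous_snd.comp continuous_subtype_val
  have h3 : Continuous fun z : S3 => z.1.1 * (starRingEnd ℂ) z.1.2 :=
    h1.mul (Complex.continuous_conj.comp h2)
  refine continuous_pi fun c => ?_
  fin_cases c
  · exact Complex.continuous_re.comp h3
  · exact Complex.continuous_im.comp h3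
  · exact Complex.continuous_re.comp (h1.pow n)
  · exact Complex.continuous_im.comp (h1.pow n)
  · exact Complex.continuous_re.comp (h2.pow n)
  · exact Complex.continuous_im.comp (h2.pow n)

theorem PhiS_congr (n : ℕ) (x y : S3)
    (h0 : x.1.1 * (starRingEnd ℂ) x.1.2 = y.1.1 * (starRingEnd ℂ) y.1.2)
    (h1 : x.1.1 ^ n = y.1.1 ^ n) (h2 : x.1.2 ^ n = y.1.2 ^ n) : PhiS n x = PhiS n y := by
  unfold PhiS
  rw [h0, h1, h2]

theorem PhiS_rot (n : ℕ) (hn : 0 < n) (z : S3) : PhiS n (rot (ztC n) z) = PhiS n z := by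
  have hz : ((ztC n : Circle) : ℂ) ^ n = 1 := by
    rw [← Circle.coe_pow, ztC_pow_self n hn.ne']
    rfl
  apply PhiS_congr
  · show ((ztC n : Circle) : ℂ) * z.1.1 * (starRingEnd ℂ) (((ztC n : Circle) : ℂ) * z.1.2) = _
    rw [map_mul]
    have hc : ((ztC n : Circle) : ℂ) * (starRingEnd ℂ) ((ztC n : Circle) : ℂ) = 1 := by
      rw [Complex.mul_conj]
      simp
    linear_combination (z.1.1 * (starRingEnd ℂ) z.1.2) * hc
  · show (((ztC n : Circle) : ℂ) * z.1.1) ^ n = _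
    rw [mul_pow, hz, one_mul]
  · show (((ztC n : Circle) : ℂ) * z.1.2) ^ n = _
    rw [mul_pow, hz, one_mul]

theorem PhiS_iter (n : ℕ) (hn : 0 < n) (l : ℕ) (z : S3) :
    PhiS n ((rot (ztC n))^[l] z) = PhiS n z := by
  induction l generalizing z with
  | zero => rfl
  | succ l ih => rw [Function.iterate_succ_apply, ih, PhiS_rot n hn]

theorem exists_zt_pow (n : ℕ) (hn : 0 < n) (w : ℂ) (hw : w ^ n = 1) :
    ∃ l, l < n ∧ w = ((ztC n : Circle) : ℂ) ^ l := by
  have hp : IsPrimitiveRoot (zt n) n := Complex.isPrimitiveRoot_exp n hn.ne'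
  have : NeZero n := ⟨hn.ne'⟩
  obtain ⟨l, hl, he⟩ := hp.eq_pow_of_pow_eq_one hw
  exact ⟨l, hl, by rw [coe_ztC3, he]⟩

theorem eq_of_PhiS_eq (n : ℕ) (x y : S3) (h : PhiS n x = PhiS n y) :
    x.1.1 * (starRingEnd ℂ) x.1.2 = y.1.1 * (starRingEnd ℂ) y.1.2 ∧
    x.1.1 ^ n = y.1.1 ^ n ∧ x.1.2 ^ n = y.1.2 ^ n := by
  refine ⟨Complex.ext (congrFun h 0) (congrFun h 1), Complex.ext (congrFun h 2) (congrFun h 3),
    Complex.ext (congrFun h 4) (congrFun h 5)⟩

/-- the fibres are the orbits -/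
theorem exists_iterate_of_PhiS_eq (n : ℕ) (hn : 0 < n) (x y : S3) (h : PhiS n x = PhiS n y) :
    ∃ l, l < n ∧ x = (rot (ztC n))^[l] y := by
  obtain ⟨h0, h1, h2⟩ := eq_of_PhiS_eq n x y h
  have key : ∃ w : ℂ, w ^ n = 1 ∧ x.1.1 = w * y.1.1 ∧ x.1.2 = w * y.1.2 := by
    by_cases hy : y.1.1 = 0
    · have hx : x.1.1 = 0 := by
        rw [hy, zero_pow hn.ne'] at h1
        exact pow_eq_zero_iff hn.ne' |>.1 h1
      have hy2 : y.1.2 ≠ 0 := by
        intro h3
        have := y.2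
        rw [hy, h3] at this
        simp at this
      refine ⟨x.1.2 / y.1.2, ?_, ?_, ?_⟩
      · rw [div_pow, h2, div_self (pow_ne_zero n hy2)]
      · rw [hx, hy, mul_zero]
      · rw [div_mul_cancel₀ _ hy2]
    · have hw : (x.1.1 / y.1.1) ^ n = 1 := by
        rw [div_pow, h1, div_self (pow_ne_zero n hy)]
      refine ⟨x.1.1 / y.1.1, hw, ?_, ?_⟩
      · rw [div_mul_cancel₀ _ hy]
      · set w := x.1.1 / y.1.1 with hwd
        have hx : x.1.1 = w * y.1.1 := by rw [hwd, div_mul_cancel₀ _ hy]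
        have hnw : ‖w‖ = 1 := by
          have : ‖w‖ ^ n = 1 := by rw [← norm_pow, hw, norm_one]
          exact (pow_eq_one_iff_of_nonneg (norm_nonneg _) hn.ne').1 this
        have hcw : w * (starRingEnd ℂ) w = 1 := by
          rw [Complex.mul_conj, Complex.normSq_eq_norm_sq, hnw]
          simp
        rw [hx] at h0
        have h3 : y.1.1 * (w * (starRingEnd ℂ) x.1.2) = y.1.1 * (starRingEnd ℂ) y.1.2 := by
          rw [← h0]; ring
        have h4 := mul_left_cancel₀ hy h3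
        have h5 : (starRingEnd ℂ) x.1.2 = (starRingEnd ℂ) w * (starRingEnd ℂ) y.1.2 := by
          rw [← h4]
          linear_combination (-(starRingEnd ℂ) x.1.2) * hcw
        rw [← map_mul] at h5
        exact (starRingEnd ℂ).injective h5
  obtain ⟨w, hw, hx1, hx2⟩ := key
  obtain ⟨l, hl, he⟩ := exists_zt_pow n hn w hw
  refine ⟨l, hl, ?_⟩
  rw [rot_iterate]
  apply Subtype.ext
  show x.1 = (((ztC n ^ l : Circle) : ℂ) * y.1.1, ((ztC n ^ l : Circle) : ℂ) * y.1.2)
  rw [Circle.coe_pow, ← he, ← hx1, ← hx2]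

theorem continuous_dist_rot_self (n l : ℕ) :
    Continuous fun x : S3 => dist x ((rot (ztC n))^[l] x) :=
  continuous_id.dist (((rot_isometry (ztC n)).continuous.iterate l))

/-- compactness -/
theorem exists_near_iterate (n : ℕ) (hn : 0 < n) (r : ℝ) (hr : 0 < r) : ∃ s : ℝ, 0 < s ∧
    ∀ x y : S3, (∀ c, |PhiS n x c - PhiS n y c| < s) →
      ∃ l, l < n ∧ dist x ((rot (ztC n))^[l] y) < r := by
  -- the set of bad pairs is compact
  set K : Set (S3 × S3) := {p | ∀ l, l < n → r ≤ dist p.1 ((rot (ztC n))^[l] p.2)} with hK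
  have hKc : IsClosed K := by
    have : K = ⋂ l, ⋂ (_ : l < n), {p : S3 × S3 | r ≤ dist p.1 ((rot (ztC n))^[l] p.2)} := by
      ext p; simp [hK]
    rw [this]
    refine isClosed_iInter fun l => isClosed_iInter fun _ => ?_
    exact isClosed_le continuous_const
      (continuous_fst.dist (((rot_isometry (ztC n)).continuous.iterate l).comp continuous_snd))
  have hf : Continuous fun p : S3 × S3 => dist (PhiS n p.1) (PhiS n p.2) :=
    ((continuous_PhiS n).comp continuous_fst).dist ((continuous_PhiS n).comp continuous_snd)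
  rcases K.eq_empty_or_nonempty with hE | hne
  · refine ⟨1, one_pos, fun x y _ => ?_⟩
    by_contra hcon
    push Not at hcon
    have : (x, y) ∈ K := fun l hl => hcon l hl
    rw [hE] at this
    exact this
  · obtain ⟨p, hp, hmin⟩ := hKc.isCompact.exists_isMinOn hne hf.continuousOn
    have hpos : 0 < dist (PhiS n p.1) (PhiS n p.2) := by
      rw [dist_pos]
      intro he
      obtain ⟨l, hl, hx⟩ := exists_iterate_of_PhiS_eq n hn _ _ he
      have := hp l hl
      rw [← hx, dist_self] at this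
      linarith
    refine ⟨dist (PhiS n p.1) (PhiS n p.2), hpos, fun x y hxy => ?_⟩
    by_contra hcon
    push Not at hcon
    have hm : (x, y) ∈ K := fun l hl => hcon l hl
    have h1 : dist (PhiS n p.1) (PhiS n p.2) ≤ dist (PhiS n x) (PhiS n y) :=
      isMinOn_iff.1 hmin (x, y) hm
    have h2 : dist (PhiS n x) (PhiS n y) < dist (PhiS n p.1) (PhiS n p.2) := by
      rw [dist_pi_lt_iff hpos]
      intro c
      rw [Real.dist_eq]
      exact hxy c
    linarith

theorem exists_pos_le_of_lt (n : ℕ) (f : ℕ → ℝ) (h : ∀ l, 0 < l → l < n → 0 < f l) :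
    ∃ R : ℝ, 0 < R ∧ ∀ l, 0 < l → l < n → R ≤ f l := by
  induction n with
  | zero => exact ⟨1, one_pos, fun l _ h => absurd h (Nat.not_lt_zero l)⟩
  | succ n ih =>
    obtain ⟨R, hR, hRl⟩ := ih fun l h1 h2 => h l h1 (Nat.lt_succ_of_lt h2)
    rcases Nat.eq_zero_or_pos n with hn | hn
    · exact ⟨1, one_pos, fun l h1 h2 => absurd h2 (by omega)⟩
    · refine ⟨min R (f n), lt_min hR (h n hn (Nat.lt_succ_self n)), fun l h1 h2 => ?_⟩
      rcases Nat.lt_succ_iff_lt_or_eq.1 h2 with h3 | h3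
      · exact (min_le_left _ _).trans (hRl l h1 h3)
      · exact (min_le_right _ _).trans (h3 ▸ le_refl _)

/-- minimal displacement -/
theorem exists_displacement (n : ℕ) (hn : 0 < n) : ∃ r : ℝ, 0 < r ∧
    ∀ (x : S3) (l : ℕ), 0 < l → l < n → r ≤ dist x ((rot (ztC n))^[l] x) := by
  have hone : ∀ l, 0 < l → l < n → ∃ r : ℝ, 0 < r ∧
      ∀ x : S3, r ≤ dist x ((rot (ztC n))^[l] x) := by
    intro l hl hln
    obtain ⟨p, -, hmin⟩ := (isCompact_univ (X := S3)).exists_isMinOn univ_nonempty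
      (continuous_dist_rot_self n l).continuousOn
    refine ⟨dist p ((rot (ztC n))^[l] p), ?_, fun x => hmin (mem_univ x)⟩
    rw [dist_pos]
    intro he
    rw [rot_iterate] at he
    have h1 := (rot_eq_self_iff _ _).1 he.symm
    rw [ztC_pow_eq_one_iff n l hn.ne'] at h1
    exact absurd (Nat.le_of_dvd hl h1) (by omega)
  choose! r hr hrx using hone
  obtain ⟨R, hR, hRl⟩ := exists_pos_le_of_lt n r hr
  exact ⟨R, hR, fun x l hl hln => (hRl l hl hln).trans (hrx l hl hln x)⟩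

end Pool.Agent.CRC
end

section

/-! TASK A3: slices of small diameter and bounded multiplicity for the free actions on `S3`.

Let `r'` be less than `r/2` and less than half of the minimal displacement (`exists_displacement`),
`s` from `exists_near_iterate n hn r'`, `W` the cover of `exists_box_cover 6 (PhiS n) _ s`.
For each `i` with `W i` nonempty choose `x0 ∈ W i` and put `V i = W i ∩ ball x0 r'` (`V i = ∅`
otherwise). For `y ∈ W i` there is `l` with `dist x0 (ζ^l y) < r'`, and `ζ^l y ∈ W i` by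
`PhiS_rot`, so the translates of `V i` cover `W i`; and `∃ l, ζ^l x ∈ V i` implies `x ∈ W i`. -/

set_option autoImplicit false

namespace Pool.Agent.CRC

open Set Topology

private theorem PhiS_iterate (n : ℕ) (hn : 0 < n) (l : ℕ) (z : S3) :
    PhiS n ((rot (ztC n))^[l] z) = PhiS n z := by
  induction l with
  | zero => rfl
  | succ l ih => rw [Function.iterate_succ_apply', PhiS_rot n hn, ih]

theorem level_HA (n : ℕ) (hn : 0 < n) (r : ℝ) (hr : 0 < r) :
    ∃ (m : ℕ) (V : Fin m → Set S3), (∀ i, IsOpen (V i)) ∧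
      (∀ i, ∀ x ∈ V i, ∀ y ∈ V i, dist x y < r) ∧
      (∀ i, ∀ x ∈ V i, ∀ l, 0 < l → l < n → (rot (ztC n))^[l] x ∉ V i) ∧
      (∀ x, ∃ i, ∃ l, (rot (ztC n))^[l] x ∈ V i) ∧
      ∀ x, Set.ncard {i | ∃ l, (rot (ztC n))^[l] x ∈ V i} ≤ 64 := by
  obtain ⟨δ, hδ, hdisp⟩ := exists_displacement n hn
  obtain ⟨r', hr'⟩ : ∃ r' : ℝ, r' = min (r / 2) (δ / 2) := ⟨_, rfl⟩
  have hr'0 : 0 < r' := by rw [hr']; exact lt_min (by linarith) (by linarith)
  have hr'r : 2 * r' ≤ r := by
    have := min_le_left (r / 2) (δ / 2)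
    linarith
  have hr'δ : 2 * r' ≤ δ := by
    have := min_le_right (r / 2) (δ / 2)
    linarith
  obtain ⟨s, hs, hnear⟩ := exists_near_iterate n hn r' hr'0
  obtain ⟨m, W, hWo, hWs, hWi, hWc, hWn⟩ := exists_box_cover 6 (PhiS n) (continuous_PhiS n) s hs
  have hex : ∀ i, ∃ x0 : S3, (W i).Nonempty → x0 ∈ W i := by
    intro i
    by_cases h : (W i).Nonempty
    · exact ⟨h.some, fun _ => h.some_mem⟩
    · exact ⟨Classical.arbitrary S3, fun h' => absurd h' h⟩
  choose x0 hx0 using hex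
  have hsmall : ∀ i, ∀ x ∈ W i ∩ Metric.ball (x0 i) r', ∀ y ∈ W i ∩ Metric.ball (x0 i) r',
      dist x y < 2 * r' := by
    intro i x hx y hy
    have h1 : dist x (x0 i) < r' := hx.2
    have h2 : dist y (x0 i) < r' := hy.2
    have h3 := dist_triangle_right x y (x0 i)
    linarith
  refine ⟨m, fun i => W i ∩ Metric.ball (x0 i) r', fun i => (hWo i).inter Metric.isOpen_ball,
    fun i x hx y hy => lt_of_lt_of_le (hsmall i x hx y hy) hr'r, ?_, ?_, ?_⟩
  · intro i x hx l hl hln hmem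
    have h1 := hsmall i x hx _ hmem
    have h2 := hdisp x l hl hln
    linarith
  · intro x
    obtain ⟨i, hi⟩ := hWc x
    have h0 := hx0 i ⟨x, hi⟩
    obtain ⟨l, -, hl⟩ := hnear (x0 i) x (fun c => hWs i _ h0 _ hi c)
    refine ⟨i, l, hWi i _ _ (PhiS_iterate n hn l x).symm hi, ?_⟩
    rw [Metric.mem_ball, dist_comm]
    exact hl
  · intro x
    refine le_trans (Set.ncard_le_ncard ?_ (Set.toFinite _)) (hWn x)
    rintro i ⟨l, hl⟩
    exact hWi i _ _ (PhiS_iterate n hn l x) hl.1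

end Pool.Agent.CRC
end

section

/-! TASK T3: property (HA) for the limit of a tower. -/

set_option autoImplicit false

namespace Pool.Agent.CRC

open Set Topology

/-- Choose `j` large with `k j ≥ N` (`T.kmono`), `δ` from `dist_lt_of_proj_dist_lt`, and pull back
the family of stage `j`; `N' = k j`. Note that `act k x ∈ proj j ⁻¹' V` iff
`(τ j)^[num j k] (x j) ∈ V`, and all numbers `l < 2 ^ k j` occur as `num j (l : ℤ_[2])`. -/
theorem Tower.ha_of_levels (T : Tower) (M : ℕ)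
    (h : ∀ j (r : ℝ), 0 < r → ∃ (m : ℕ) (V : Fin m → Set (T.S j)), (∀ i, IsOpen (V i)) ∧
      (∀ i, ∀ x ∈ V i, ∀ y ∈ V i, dist x y < r) ∧
      (∀ i, ∀ x ∈ V i, ∀ l, 0 < l → l < 2 ^ T.k j → (T.τ j)^[l] x ∉ V i) ∧
      (∀ x, ∃ i, ∃ l, (T.τ j)^[l] x ∈ V i) ∧
      ∀ x, Set.ncard {i | ∃ l, (T.τ j)^[l] x ∈ V i} ≤ M) : HA T.act := by
  refine ⟨M, fun N ε hε => ?_⟩
  obtain ⟨j0, hj0⟩ := T.dist_lt_of_proj_dist_lt ε hε
  obtain ⟨δ, hδ, hδε⟩ := hj0 (max j0 N) (le_max_left _ _)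
  obtain ⟨m, V, hV1, hV2, hV3, hV4, hV5⟩ := h (max j0 N) δ hδ
  refine ⟨T.k (max j0 N), m, fun i => T.proj (max j0 N) ⁻¹' V i,
    (le_max_right _ _).trans (T.kmono.le_apply), ?_, ?_, ?_, ?_, ?_⟩
  · intro i
    exact (hV1 i).preimage (T.continuous_proj _)
  · intro i x hx y hy
    exact hδε x y (hV2 i _ hx _ hy)
  · intro i k x hx hkx
    rw [← T.num_eq_zero_iff]
    by_contra hne
    have hkx' : (T.τ (max j0 N))^[T.num (max j0 N) k] (T.proj (max j0 N) x) ∈ V i := hkx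
    exact hV3 i _ hx _ (Nat.pos_of_ne_zero hne) (T.num_lt _ _) hkx'
  · intro x
    obtain ⟨i, l, hl⟩ := hV4 (T.proj (max j0 N) x)
    refine ⟨i, (l : ℤ_[2]), ?_⟩
    show (T.τ (max j0 N))^[T.num (max j0 N) (l : ℤ_[2])] (T.proj (max j0 N) x) ∈ V i
    rw [T.num_natCast]
    exact hl
  · intro x
    refine le_trans (Set.ncard_le_ncard ?_ (Set.toFinite _)) (hV5 (T.proj (max j0 N) x))
    rintro i ⟨k, hk⟩
    exact ⟨T.num (max j0 N) k, hk⟩

end Pool.Agent.CRC
end
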