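import Pool.Agent.Lib.MP_13800a_gt.OrbMap
import Pool.Agent.Lib.MP_13800a_gt.OrbFib

section

/-! TASK O4: the dimension of `X = (E × A)/K` is finite. -/

set_option autoImplicit false

namespace Pool.Agent.CRC

open Set Topology

variable {E A : Type} [MetricSpace E] [MetricSpace A] {actE : ℤ_[2] → E → E}
  {actA : ℤ_[2] → A → A}

/-- A criterion: open covers of arbitrarily small mesh and multiplicity `≤ M` (Lebesgue number). -/
theorem finDim_of_small_covers {X : Type} [MetricSpace X] [CompactSpace X] (M : ℕ)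
    (h : ∀ ε : ℝ, 0 < ε → ∃ (m : ℕ) (W : Fin m → Set X), (∀ i, IsOpen (W i)) ∧
      (∀ i, ∀ x ∈ W i, ∀ y ∈ W i, dist x y < ε) ∧ (∀ x, ∃ i, x ∈ W i) ∧
      ∀ x, Set.ncard {i | x ∈ W i} ≤ M) : FinDim X := by
  classical
  refine ⟨M, fun 𝒰 hU hcov => ?_⟩
  obtain ⟨δ, hδ, hL⟩ := lebesgue_number_lemma_of_metric_sUnion (s := (Set.univ : Set X))
    (c := (↑𝒰 : Set (Set X))) isCompact_univ (fun t ht => hU t (by simpa using ht))
    (by rw [hcov])
  obtain ⟨m, W, hWo, hWd, hWc, hWM⟩ := h δ hδ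
  refine ⟨(Finset.univ.image W).filter (fun V => V.Nonempty), ?_, ?_, ?_, ?_⟩
  · intro V hV
    simp only [Finset.mem_filter, Finset.mem_image, Finset.mem_univ, true_and] at hV
    obtain ⟨⟨i, rfl⟩, -⟩ := hV
    exact hWo i
  · apply Set.eq_univ_of_forall
    intro x
    obtain ⟨i, hi⟩ := hWc x
    refine ⟨W i, ?_, hi⟩
    simp only [Finset.coe_filter, Finset.mem_image, Finset.mem_univ, true_and, Set.mem_setOf_eq]
    exact ⟨⟨i, rfl⟩, ⟨x, hi⟩⟩
  · intro V hV
    simp only [Finset.mem_filter, Finset.mem_image, Finset.mem_univ, true_and] at hV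
    obtain ⟨⟨i, rfl⟩, ⟨x, hx⟩⟩ := hV
    obtain ⟨U, hU1, hU2⟩ := hL x (Set.mem_univ x)
    refine ⟨U, by simpa using hU1, fun y hy => hU2 ?_⟩
    rw [Metric.mem_ball]
    exact hWd i y hy x hx
  · intro 𝒮 hS hcard
    by_contra hne
    obtain ⟨x, hx⟩ := Set.nonempty_iff_ne_empty.mpr hne
    have hsub : (↑𝒮 : Set (Set X)) ⊆ W '' {i | x ∈ W i} := by
      intro V hV
      have h1 := hS hV
      simp only [Finset.mem_filter, Finset.mem_image, Finset.mem_univ, true_and] at h1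
      obtain ⟨⟨i, rfl⟩, -⟩ := h1
      exact ⟨i, hx _ hV, rfl⟩
    have h1 : 𝒮.card ≤ Set.ncard {i | x ∈ W i} := by
      rw [← Set.ncard_coe_finset]
      exact (Set.ncard_le_ncard hsub (Set.toFinite _)).trans (Set.ncard_image_le (Set.toFinite _))
    have := hWM x
    omega

/-- The sets `pr (V i ×ˢ T j)` form a cover of multiplicity `≤ 3 M`: fix `(e, a)`. There are at
most `M` indices `j` with `∃ k, act k a ∈ T j`; for such `j` all `k` with `act k a ∈ T j` are in one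
coset of `2^N'` (hence of `2^N`), so that `act k e ∈ V i` does not depend on `k`: at most 3 `i`'s. -/
theorem finDim_prod [CompactSpace E] [CompactSpace A] (hE : IsKAct actE) (hA : IsKAct actA)
    (h1 : HE actE) (h2 : HA actA) : FinDim (Orb (hE.prod hA)) := by
  classical
  haveI : CompactSpace (Orb (hE.prod hA)) := compactSpace_orb (hE.prod hA)
  obtain ⟨M, hM⟩ := h2
  apply finDim_of_small_covers (3 * M)
  intro ε hε
  obtain ⟨N, m1, V, hVo, hVd, hVi, hVc, hV3⟩ := h1 ε hε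
  obtain ⟨N', m2, T, hN, hTo, hTd, hTi, hTc, hTM⟩ := hM N ε hε
  refine ⟨m1 * m2, fun l => pr (hE.prod hA) ''
    (V (finProdFinEquiv.symm l).1 ×ˢ T (finProdFinEquiv.symm l).2), ?_, ?_, ?_, ?_⟩
  · intro l
    exact isOpenMap_pr (hE.prod hA) _ ((hVo _).prod (hTo _))
  · rintro l x ⟨⟨e, a⟩, ⟨he, ha⟩, rfl⟩ y ⟨⟨e', a'⟩, ⟨he', ha'⟩, rfl⟩
    refine (dist_pr_le (hE.prod hA) _ _).trans_lt ?_
    rw [Prod.dist_eq]
    exact max_lt (hVd _ _ he _ he') (hTd _ _ ha _ ha')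
  · intro x
    obtain ⟨⟨e, a⟩, rfl⟩ := pr_surjective (hE.prod hA) x
    obtain ⟨j, k, hk⟩ := hTc a
    obtain ⟨i, hi⟩ := hVc (actE k e)
    refine ⟨finProdFinEquiv (i, j), (actE k e, actA k a), ?_, pr_act (hE.prod hA) k (e, a)⟩
    simp only [Equiv.symm_apply_apply]
    exact ⟨hi, hk⟩
  · intro x
    obtain ⟨⟨e, a⟩, rfl⟩ := pr_surjective (hE.prod hA) x
    -- indices
    let J : Finset (Fin m2) := Finset.univ.filter fun j => ∃ k, actA k a ∈ T j
    have hJ : J.card ≤ M := by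
      have := hTM a
      have h3 : (↑J : Set (Fin m2)) = {j | ∃ k, actA k a ∈ T j} := by
        ext j; simp [J]
      rw [← h3, Set.ncard_coe_finset] at this
      exact this
    have hch : ∀ j : Fin m2, ∃ k : ℤ_[2], (∃ k', actA k' a ∈ T j) → actA k a ∈ T j := by
      intro j
      by_cases hj : ∃ k', actA k' a ∈ T j
      · obtain ⟨k, hk⟩ := hj
        exact ⟨k, fun _ => hk⟩
      · exact ⟨0, fun h => absurd h hj⟩
    choose κ hκ using hch
    let I : Fin m2 → Finset (Fin m1) := fun j => Finset.univ.filter fun i => actE (κ j) e ∈ V i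
    have hI : ∀ j, (I j).card ≤ 3 := by
      intro j
      have := hV3 (actE (κ j) e)
      have h3 : (↑(I j) : Set (Fin m1)) = {i | actE (κ j) e ∈ V i} := by
        ext i; simp [I]
      rw [← h3, Set.ncard_coe_finset] at this
      exact this
    let P : Finset (Fin (m1 * m2)) := J.biUnion fun j => (I j).image fun i => finProdFinEquiv (i, j)
    have hP : P.card ≤ 3 * M := by
      calc P.card ≤ J.card * 3 := by
            apply Finset.card_biUnion_le_card_mul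
            intro j _
            exact Finset.card_image_le.trans (hI j)
        _ ≤ 3 * M := by omega
    have hsub : {l | pr (hE.prod hA) (e, a) ∈ pr (hE.prod hA) ''
        (V (finProdFinEquiv.symm l).1 ×ˢ T (finProdFinEquiv.symm l).2)} ⊆ (↑P : Set _) := by
      intro l hl
      obtain ⟨⟨e', a'⟩, ⟨he', ha'⟩, hea⟩ := hl
      obtain ⟨k, hk⟩ := (pr_eq_iff (hE.prod hA)).mp hea
      have hk1 : actE k e = e' := congrArg Prod.fst hk
      have hk2 : actA k a = a' := congrArg Prod.snd hk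
      obtain ⟨⟨i, j⟩, rfl⟩ := finProdFinEquiv.surjective l
      simp only [Equiv.symm_apply_apply] at he' ha'
      subst hk1 hk2
      have hjJ : ∃ k', actA k' a ∈ T j := ⟨k, ha'⟩
      have hκj := hκ j hjJ
      have hdv : (2 : ℤ_[2]) ^ N' ∣ k - κ j := by
        apply hTi j (k - κ j) (actA (κ j) a) hκj
        rw [← hA.add, sub_add_cancel]
        exact ha'
      have hdv2 : (2 : ℤ_[2]) ^ N ∣ κ j - k := by
        have := (pow_dvd_pow (2 : ℤ_[2]) hN).trans hdv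
        rw [← neg_sub]
        exact (dvd_neg).mpr this
      have hiI : actE (κ j) e ∈ V i := by
        have := hVi i (κ j - k) hdv2 (actE k e) he'
        rw [← hE.add, sub_add_cancel] at this
        exact this
      simp only [P, Finset.coe_biUnion, Set.mem_iUnion, Finset.mem_coe, Finset.mem_image, I, J,
        Finset.mem_filter, Finset.mem_univ, true_and]
      exact ⟨j, hjJ, i, hiI, rfl⟩
    calc _ ≤ Set.ncard (↑P : Set (Fin (m1 * m2))) := Set.ncard_le_ncard hsub (Set.toFinite _)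
      _ = P.card := Set.ncard_coe_finset P
      _ ≤ 3 * M := hP

end Pool.Agent.CRC
end

section

/-! TASK O5: the frozen statement from the spaces `E` and `A`. -/

set_option autoImplicit false

namespace Pool.Agent.CRC

open Set Topology

theorem not_main_of {E A : Type} [MetricSpace E] [MetricSpace A] [CompactSpace E] [CompactSpace A]
    [Nonempty A] {actE : ℤ_[2] → E → E} {actA : ℤ_[2] → A → A} (hE : IsKAct actE)
    (hA : IsKAct actA) (h1 : HE actE) (h2 : HA actA) (hc : CellLike A)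
    (hY : ¬ FinDim (Orb hE)) :
    ¬ (∀ (X Y : Type) [MetricSpace X] [MetricSpace Y] (f : X → Y),
      IsProperMap f → Function.Surjective f →
      (∀ y : Y, ∀ e : ↥(f ⁻¹' {y}) → (ℕ → unitInterval), Topology.IsEmbedding e →
        ∀ U : Set (ℕ → unitInterval), IsOpen U → Set.range e ⊆ U →
          ∃ H : unitInterval × ↥(f ⁻¹' {y}) → (ℕ → unitInterval), Continuous H ∧
            (∀ k : ↥(f ⁻¹' {y}), H ((0 : unitInterval), k) = e k) ∧
            (∃ q : ℕ → unitInterval, ∀ k : ↥(f ⁻¹' {y}), H ((1 : unitInterval), k) = q) ∧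
            ∀ (t : unitInterval) (k : ↥(f ⁻¹' {y})), H (t, k) ∈ U) →
      (∀ ε : ℝ, 0 < ε → ∀ y : Y, ∃ δ : ℝ, 0 < δ ∧ ∀ y' : Y, dist y' y < δ →
        ∃ h : ↥(f ⁻¹' {y}) ≃ₜ ↥(f ⁻¹' {y'}),
          ∀ x : ↥(f ⁻¹' {y}), dist (x : X) ((h x : ↥(f ⁻¹' {y'})) : X) < ε) →
      (∃ n : ℕ, ∀ 𝒰 : Finset (Set X), (∀ U ∈ 𝒰, IsOpen U) →
        ⋃₀ (↑𝒰 : Set (Set X)) = Set.univ →
        ∃ 𝒱 : Finset (Set X), (∀ V ∈ 𝒱, IsOpen V) ∧
          ⋃₀ (↑𝒱 : Set (Set X)) = Set.univ ∧ (∀ V ∈ 𝒱, ∃ U ∈ 𝒰, V ⊆ U) ∧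
          ∀ 𝒮 : Finset (Set X), 𝒮 ⊆ 𝒱 → n + 1 < 𝒮.card →
            ⋂₀ (↑𝒮 : Set (Set X)) = ∅) →
      (∃ n : ℕ, ∀ 𝒰 : Finset (Set Y), (∀ U ∈ 𝒰, IsOpen U) →
        ⋃₀ (↑𝒰 : Set (Set Y)) = Set.univ →
        ∃ 𝒱 : Finset (Set Y), (∀ V ∈ 𝒱, IsOpen V) ∧
          ⋃₀ (↑𝒱 : Set (Set Y)) = Set.univ ∧ (∀ V ∈ 𝒱, ∃ U ∈ 𝒰, V ⊆ U) ∧
          ∀ 𝒮 : Finset (Set Y), 𝒮 ⊆ 𝒱 → n + 1 < 𝒮.card →
            ⋂₀ (↑𝒮 : Set (Set Y)) = ∅)) := by
  intro H
  exact hY (H _ _ (fmap hE hA) (fmap_proper hE hA) (fmap_surjective hE hA)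
    (fun y => cellLike_fibre hE hA hc y) (fmap_regular hE hA) (finDim_prod hE hA h1 h2))

end Pool.Agent.CRC
end
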